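import Mathlib
import Pool.Agent.K4H74.SC.Lead

/-!
# Beilinson's equivariant conjecture for `K_{2k-1}`, `k` odd: the definitions

For odd `k` the real Deligne cohomology `V⁺` of a number field `L` is the space of the real functions on
the infinite places of `L` (up to the sign `i^(k-1)`).
-/

set_option autoImplicit false
set_option linter.unusedSectionVars false

open NumberField

namespace Pool.Agent.U213.BE

open Pool.Agent.K4H74 Pool.Agent.K4H74.SC

section gen

variable {G : Type} [Group G] {V : Type} [AddCommGroup V] [Module ℂ V] {W : Type} [AddCommGroup W]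
  [Module ℂ W]

/-- the space `Hom_G(V, W)` of the `G`-equivariant linear maps -/
def EqHom (ρ : Representation ℂ G V) (τ : Representation ℂ G W) : Type := HomG ρ τ

/-- the addition of `Hom_G(V, W)` -/
instance EqHom.grp (ρ : Representation ℂ G V) (τ : Representation ℂ G W) : AddCommGroup (EqHom ρ τ) :=
  inferInstanceAs (AddCommGroup (HomG ρ τ))

/-- the scalar multiplication of `Hom_G(V, W)` -/
instance EqHom.mod (ρ : Representation ℂ G V) (τ : Representation ℂ G W) : Module ℂ (EqHom ρ τ) :=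
  inferInstanceAs (Module ℂ (HomG ρ τ))

/-- an element of `Hom_G(V, W)` as a linear map -/
def EqHom.lin {ρ : Representation ℂ G V} {τ : Representation ℂ G W} (f : EqHom ρ τ) : V →ₗ[ℂ] W := f.1

/-- `r` is the determinant of the map `f ↦ Λ ∘ f` of the space `Hom_G(V, W)`. -/
def IsHomDet (ρ : Representation ℂ G V) (τ : Representation ℂ G W) (Λ : W →ₗ[ℂ] W) (r : ℂ) : Prop :=
  ∃ D : EqHom ρ τ →ₗ[ℂ] EqHom ρ τ, (∀ f, (D f).lin = Λ ∘ₗ f.lin) ∧ r = LinearMap.det D

lemma IsHomDet.eq {ρ : Representation ℂ G V} {τ : Representation ℂ G W} {Λ : W →ₗ[ℂ] W} {r : ℂ}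
    (h : IsHomDet ρ τ Λ r) (hΛ : ∀ g w, Λ (τ g w) = τ g (Λ w)) : r = homDet ρ τ Λ hΛ := by
  obtain ⟨D, hD, rfl⟩ := h
  have h1 : D = homMap ρ τ Λ hΛ := by
    apply LinearMap.ext
    intro f
    apply Subtype.ext
    exact hD f
  rw [h1]
  rfl

lemma isHomDet_homDet (ρ : Representation ℂ G V) (τ : Representation ℂ G W) (Λ : W →ₗ[ℂ] W)
    (hΛ : ∀ g w, Λ (τ g w) = τ g (Λ w)) : IsHomDet ρ τ Λ (homDet ρ τ Λ hΛ) :=
  ⟨homMap ρ τ Λ hΛ, fun _ => rfl, rfl⟩

end gen

/-- The groups `ℚ ⊗ K_{2k-1}(L)` of the number fields `L`, for one odd `k > 1`, with the maps given by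
the homomorphisms of fields, and Borel's regulator; for odd `k` its values in
`V⁺ = (⊕_τ ℝ(k-1))⁺` are functions on the infinite places of `L` (up to the sign `i^(k-1)`). Known facts:
the regulator is functorial, and it is an isomorphism from `ℝ ⊗ K_{2k-1}(L)` to `V⁺` (Borel). -/
structure KTheory where
  /-- `ℚ ⊗ K_{2k-1}(L)` -/
  H : ∀ (L : Type) [Field L] [NumberField L], Type
  [acg : ∀ (L : Type) [Field L] [NumberField L], AddCommGroup (H L)]
  [mod : ∀ (L : Type) [Field L] [NumberField L], Module ℚ (H L)]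
  /-- functoriality -/
  map : ∀ {L N : Type} [Field L] [NumberField L] [Field N] [NumberField N],
    (L →+* N) → H L →ₗ[ℚ] H N
  /-- Borel's regulator -/
  reg : ∀ {L : Type} [Field L] [NumberField L], H L →ₗ[ℚ] (InfinitePlace L → ℝ)
  /-- the regulator is functorial -/
  reg_map : ∀ {L N : Type} [Field L] [NumberField L] [Field N] [NumberField N] (f : L →+* N)
    (x : H L) (w : InfinitePlace N), reg (map f x) w = reg x (w.comap f)
  /-- Borel's theorem -/
  borel : ∀ (L : Type) [Field L] [NumberField L], ∃ b : Module.Basis (InfinitePlace L) ℚ (H L),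
    LinearIndependent ℝ fun w => reg (b w)

attribute [instance] KTheory.acg KTheory.mod

section

variable (K L : Type) [Field K] [NumberField K] [Field L] [NumberField L] [Algebra K L]

/-- the action of an element of `Gal(L/K)` on the functions on the infinite places of `L`, with values in
`k`: `(g a)(w) = a (w ∘ g)` -/
def actL (k : Type) [Field k] (g : L ≃ₐ[K] L) : (InfinitePlace L → k) →ₗ[k] (InfinitePlace L → k) :=
  LinearMap.funLeft k k fun w => g⁻¹ • w

lemma actL_one (k : Type) [Field k] : actL K L k 1 = 1 := by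
  apply LinearMap.ext
  intro a
  funext w
  change a ((1 : L ≃ₐ[K] L)⁻¹ • w) = a w
  rw [inv_one, one_smul]

lemma actL_mul (k : Type) [Field k] (g h : L ≃ₐ[K] L) :
    actL K L k (g * h) = actL K L k g * actL K L k h := by
  apply LinearMap.ext
  intro a
  funext w
  change a ((g * h)⁻¹ • w) = a (h⁻¹ • (g⁻¹ • w))
  rw [mul_inv_rev, mul_smul]

/-- the action of `Gal(L/K)` on the functions on the infinite places of `L`, with values in `k`:
`(g a)(w) = a (w ∘ g)` -/
def rep (k : Type) [Field k] : Representation k (L ≃ₐ[K] L) (InfinitePlace L → k) where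
  toFun := actL K L k
  map_one' := actL_one K L k
  map_mul' := actL_mul K L k

/-- a rational function on the places as a complex function -/
def toC (L : Type) [Field L] (x : InfinitePlace L → ℚ) : InfinitePlace L → ℂ := fun w => ((x w : ℚ) : ℂ)

/-- A `ℚ[Gal(L/K)]`-isomorphism from `B_L⁺` to `ℚ ⊗ K_{2k-1}(L)`, together with the `ℂ`-linear automorphism
`Lam` of `ℂ ⊗ V⁺` which it induces by means of the regulator. Here `B_L⁺ = (⊕_τ ℚ(k-1))⁺` is the space of
the functions `π^(k-1) x`, with `x` a function on the infinite places with rational values (up to `i^(k-1)`):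
`phi x` is the image of `π^(k-1) x`. -/
structure BorelMap (T : KTheory) (k : ℕ) where
  /-- the isomorphism -/
  phi : (InfinitePlace L → ℚ) ≃ₗ[ℚ] T.H L
  /-- it is equivariant -/
  equi : ∀ (g : L ≃ₐ[K] L) (x : InfinitePlace L → ℚ),
    phi (rep K L ℚ g x) = T.map (RingHomClass.toRingHom g) (phi x)
  /-- the automorphism of `ℂ ⊗ V⁺` -/
  Lam : (InfinitePlace L → ℂ) →ₗ[ℂ] (InfinitePlace L → ℂ)
  /-- it is induced by the isomorphism -/
  spec : ∀ (x : InfinitePlace L → ℚ) (w : InfinitePlace L),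
    Lam ((Real.pi : ℂ) ^ (k - 1) • toC L x) w = ((T.reg (phi x) w : ℝ) : ℂ)

end

section

variable {K L : Type} [Field K] [NumberField K] [Field L] [NumberField L] [Algebra K L]

lemma rep_apply {k : Type} [Field k] (g : L ≃ₐ[K] L) (a : InfinitePlace L → k) (w : InfinitePlace L) :
    rep K L k g a w = a (g⁻¹ • w) := rfl

lemma toC_rep (g : L ≃ₐ[K] L) (x : InfinitePlace L → ℚ) :
    toC L (rep K L ℚ g x) = rep K L ℂ g (toC L x) := rfl

lemma toC_add (x y : InfinitePlace L → ℚ) : toC L (x + y) = toC L x + toC L y := by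
  funext w
  change (((x w + y w : ℚ)) : ℂ) = (x w : ℂ) + (y w : ℂ)
  push_cast
  rfl

lemma toC_smul (q : ℚ) (x : InfinitePlace L → ℚ) : toC L (q • x) = (q : ℂ) • toC L x := by
  funext w
  change (((q * x w : ℚ)) : ℂ) = (q : ℂ) * (x w : ℂ)
  push_cast
  rfl

open Classical in
lemma eq_sum {k : Type} [Field k] (a : InfinitePlace L → k) :
    a = ∑ w, a w • (Pi.single w 1 : InfinitePlace L → k) := by
  funext v
  rw [Finset.sum_apply]
  simp [Pi.single_apply]

open Classical in
lemma single_toC (w : InfinitePlace L) : toC L (Pi.single w 1) = Pi.single w 1 := by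
  funext v
  change (((Pi.single w (1 : ℚ) : InfinitePlace L → ℚ) v : ℚ) : ℂ) = _
  simp only [Pi.single_apply]
  split_ifs <;> simp

lemma ext_toC {E : Type*} [AddCommGroup E] [Module ℂ E] {f g : (InfinitePlace L → ℂ) →ₗ[ℂ] E}
    (h : ∀ x : InfinitePlace L → ℚ, f (toC L x) = g (toC L x)) : f = g := by
  classical
  apply LinearMap.ext
  intro a
  rw [eq_sum a, map_sum, map_sum]
  refine Finset.sum_congr rfl fun w _ => ?_
  rw [map_smul, map_smul, ← single_toC, h]

/-- linear maps on rational functions extend to complex functions -/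
lemma lift_toC {E : Type*} [AddCommGroup E] [Module ℂ E] [Module ℚ E] [IsScalarTower ℚ ℂ E]
    (f : (InfinitePlace L → ℚ) →ₗ[ℚ] E) :
    ∃ F : (InfinitePlace L → ℂ) →ₗ[ℂ] E, ∀ x : InfinitePlace L → ℚ, F (toC L x) = f x := by
  classical
  refine ⟨{ toFun := fun a => ∑ w, a w • f (Pi.single w 1)
            map_add' := ?_
            map_smul' := ?_ }, ?_⟩
  · intro a b
    rw [← Finset.sum_add_distrib]
    refine Finset.sum_congr rfl fun w _ => ?_
    rw [← add_smul]
    rfl
  · intro c a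
    rw [RingHom.id_apply, Finset.smul_sum]
    refine Finset.sum_congr rfl fun w _ => ?_
    rw [smul_smul]
    rfl
  · intro x
    change ∑ w, ((x w : ℚ) : ℂ) • f (Pi.single w 1) = f x
    conv_rhs => rw [eq_sum x]
    rw [map_sum]
    refine Finset.sum_congr rfl fun w _ => ?_
    rw [map_smul]
    have h1 : ((x w : ℚ) : ℂ) = (x w) • (1 : ℂ) := by
      rw [Rat.smul_def, mul_one]
    rw [h1, smul_assoc, one_smul]

end

section

variable {T : KTheory} {k : ℕ}

/-- the complex regulator -/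
noncomputable def regC (T : KTheory) {L : Type} [Field L] [NumberField L] :
    T.H L →ₗ[ℚ] (InfinitePlace L → ℂ) where
  toFun x w := ((T.reg x w : ℝ) : ℂ)
  map_add' x y := by
    funext w
    rw [map_add, Pi.add_apply, Pi.add_apply]
    push_cast
    rfl
  map_smul' q x := by
    funext w
    rw [map_smul]
    simp only [Pi.smul_apply, Rat.smul_def, RingHom.id_apply]
    push_cast
    rfl

lemma regC_apply {L : Type} [Field L] [NumberField L] (x : T.H L) (w : InfinitePlace L) :
    regC T x w = ((T.reg x w : ℝ) : ℂ) := rfl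

lemma pi_ne (k : ℕ) : ((Real.pi : ℂ)) ^ (k - 1) ≠ 0 :=
  pow_ne_zero _ (by exact_mod_cast Real.pi_ne_zero)

variable {K L : Type} [Field K] [NumberField K] [Field L] [NumberField L] [Algebra K L]

lemma BorelMap.spec' (φ : BorelMap K L T k) (x : InfinitePlace L → ℚ) :
    φ.Lam (toC L x) = ((Real.pi : ℂ) ^ (k - 1))⁻¹ • regC T (φ.phi x) := by
  have h : φ.Lam ((Real.pi : ℂ) ^ (k - 1) • toC L x) = regC T (φ.phi x) := funext fun w => φ.spec x w
  rw [map_smul] at h
  rw [← h, smul_smul, inv_mul_cancel₀ (pi_ne k), one_smul]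

lemma comap_inv (g : L ≃ₐ[K] L) (w : InfinitePlace L) :
    w.comap (RingHomClass.toRingHom g) = g⁻¹ • w := rfl

lemma regC_map (g : L ≃ₐ[K] L) (x : T.H L) :
    regC T (T.map (RingHomClass.toRingHom g) x) = rep K L ℂ g (regC T x) := by
  funext w
  rw [regC_apply, T.reg_map, rep_apply, regC_apply, comap_inv]

lemma BorelMap.comm (φ : BorelMap K L T k) (g : L ≃ₐ[K] L) (a : InfinitePlace L → ℂ) :
    φ.Lam (rep K L ℂ g a) = rep K L ℂ g (φ.Lam a) := by
  have h : φ.Lam ∘ₗ (rep K L ℂ g) = (rep K L ℂ g) ∘ₗ φ.Lam := by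
    apply ext_toC
    intro x
    rw [LinearMap.comp_apply, LinearMap.comp_apply, ← toC_rep, φ.spec', φ.spec', φ.equi, regC_map,
      map_smul]
  exact LinearMap.congr_fun h a

/-- `r` is the regulator `R(χ, φ)`: the determinant of the map `f ↦ Lam ∘ f` of the space
`Hom_G(V, ℂ ⊗ V⁺)`, where the representation `V` has the character `g ↦ χ (g⁻¹)`. -/
def IsReg (φ : BorelMap K L T k) (χ : (L ≃ₐ[K] L) → ℂ) (r : ℂ) : Prop :=
  ∃ (V : Type) (_ : AddCommGroup V) (_ : Module ℂ V) (_ : FiniteDimensional ℂ V)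
    (ρ : Representation ℂ (L ≃ₐ[K] L) V),
    (∀ g, ρ.character g = χ g⁻¹) ∧ IsHomDet ρ (rep K L ℂ) φ.Lam r

lemma IsReg.elim {φ : BorelMap K L T k} {χ : (L ≃ₐ[K] L) → ℂ} {r : ℂ} (h : IsReg φ χ r) :
    ∃ (V : Type) (_ : AddCommGroup V) (_ : Module ℂ V) (_ : FiniteDimensional ℂ V)
    (ρ : Representation ℂ (L ≃ₐ[K] L) V), (∀ g, ρ.character g = χ g⁻¹) ∧
      r = homDet ρ (rep K L ℂ) φ.Lam φ.comm := by
  obtain ⟨V, i1, i2, i3, ρ, hρ, hD⟩ := h
  exact ⟨V, i1, i2, i3, ρ, hρ, hD.eq φ.comm⟩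

lemma isReg_homDet (φ : BorelMap K L T k) {χ : (L ≃ₐ[K] L) → ℂ} {V : Type} [AddCommGroup V]
    [Module ℂ V] [FiniteDimensional ℂ V] (ρ : Representation ℂ (L ≃ₐ[K] L) V)
    (hρ : ∀ g, ρ.character g = χ g⁻¹) : IsReg φ χ (homDet ρ (rep K L ℂ) φ.Lam φ.comm) :=
  ⟨V, inferInstance, inferInstance, inferInstance, ρ, hρ, isHomDet_homDet ρ _ _ _⟩

end

/-- `c` is a system of leading coefficients at `s₀` of the Artin L-functions
`L(s, χ) = exp (∑ χ(p^n) / (n N(p)^(n s)))`: if a product `∏ L(s, χ_i)^(k_i)`, with characters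
`χ_i` of Galois groups and integers `k_i`, is equal for `Re s > 1` to a function `f` which is
meromorphic on `ℂ`, then `∏ c(χ_i)^(k_i)` is the leading coefficient of `f` at `s₀`. -/
def IsLeading (s₀ : ℂ) (c : SK.Pair → ℂ) : Prop :=
  ∀ (m : ℕ) (x : Fin m → SK.Pair) (k : Fin m → ℤ) (f : ℂ → ℂ), (∀ i, SK.IsChr (x i).2) →
    (∀ z, MeromorphicAt f z) →
    (∀ s : ℂ, 1 < s.re → ∃ l : Fin m → ℂ, (∀ i, HasSum (SK.logTerm (x i).2 s) (l i)) ∧
      f s = Complex.exp (∑ i, k i * l i)) →
    ∏ i, c (x i) ^ k i = meromorphicTrailingCoeffAt f s₀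

/-- The conjecture for the character `χ` and the automorphism `σ` of `ℂ`:
`(R(χ, φ) / L*(χ, 1 - k))^σ = R(χ^σ, φ) / L*(χ^σ, 1 - k)` for all `φ`. -/
def Gross (T : KTheory) (k : ℕ) (c : SK.Pair → ℂ) (σ : ℂ ≃+* ℂ) (K L : Type) [Field K]
    [NumberField K] [Field L] [NumberField L] [Algebra K L] [IsGalois K L]
    (χ : (L ≃ₐ[K] L) → ℂ) : Prop :=
  ∀ (φ : BorelMap K L T k) (r r' : ℂ), IsReg φ χ r → IsReg φ (fun g => σ (χ g)) r' →
    σ (r / c ⟨⟨K, L⟩, χ⟩) = r' / c ⟨⟨K, L⟩, fun g => σ (χ g)⟩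

/-- **Beilinson's conjecture for the extension `L/K`** (in the problem `L/K` is abelian):
`det H = L*(1-k) det B_L⁺`. Let `φ` be an isomorphism from `B_L⁺` to `H = ℚ ⊗ K_{2k-1}(L)`; then the
equality says that the element of `ℂ[G]` with the components `R(χ, φ) / L*(χ, 1-k)`, `χ` a linear character
of `G = Gal(L/K)`, belongs to `ℚ[G]`, that is, that it is fixed by the automorphisms of `ℂ`. -/
def Beilinson (T : KTheory) (k : ℕ) (c : SK.Pair → ℂ) (K L : Type) [Field K]
    [NumberField K] [Field L] [NumberField L] [Algebra K L] [IsGalois K L] : Prop :=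
  ∀ (σ : ℂ ≃+* ℂ) (ψ : (L ≃ₐ[K] L) →* ℂˣ), Gross T k c σ K L fun g => ((ψ g : ℂˣ) : ℂ)

end Pool.Agent.U213.BE
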