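import Mathlib
import Pool.Agent.U213.BE.Defs
import Pool.Agent.K4H74.SC.Infl

/-!
# The regulators of the characters: existence, change of the isomorphism, induction
-/

set_option autoImplicit false
set_option linter.unusedSectionVars false

open NumberField

namespace Pool.Agent.U213.BE

open Pool.Agent.K4H74 Pool.Agent.K4H74.SC Pool.Agent.K4H74.ST

variable {T : KTheory} {k : ℕ}

section basic

variable {L : Type} [Field L] [NumberField L]

/-- linear independence over `ℂ` -/
lemma indepC {ι : Type} [Fintype ι] {v : ι → (InfinitePlace L → ℝ)} (hb : LinearIndependent ℝ v) :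
    LinearIndependent ℂ fun w => ((fun p => ((v w p : ℝ) : ℂ)) : InfinitePlace L → ℂ) := by
  rw [Fintype.linearIndependent_iff] at hb ⊢
  intro g hg i
  have h1 : ∀ p, ∑ w, g w * ((v w p : ℝ) : ℂ) = 0 := by
    intro p
    have := congrFun hg p
    rw [Finset.sum_apply] at this
    exact this
  have hre : ∑ w, (g w).re • v w = 0 := by
    funext p
    rw [Finset.sum_apply]
    have := congrArg Complex.re (h1 p)
    rw [Complex.re_sum] at this
    simp only [Pi.smul_apply, smul_eq_mul, Pi.zero_apply]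
    simpa only [Complex.re_mul_ofReal, Complex.zero_re] using this
  have him : ∑ w, (g w).im • v w = 0 := by
    funext p
    rw [Finset.sum_apply]
    have := congrArg Complex.im (h1 p)
    rw [Complex.im_sum] at this
    simp only [Pi.smul_apply, smul_eq_mul, Pi.zero_apply]
    simpa only [Complex.im_mul_ofReal, Complex.zero_im] using this
  exact Complex.ext (hb _ hre i) (hb _ him i)

/-- the regulators span over `ℂ` -/
lemma regC_span (T : KTheory) (L : Type) [Field L] [NumberField L] :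
    Submodule.span ℂ (Set.range (regC T (L := L))) = ⊤ := by
  classical
  obtain ⟨b, hb⟩ := T.borel L
  have hC : LinearIndependent ℂ fun w => regC T (b w) := indepC hb
  have h2 := hC.span_eq_top_of_card_eq_finrank' (by rw [Module.finrank_pi])
  rw [eq_top_iff, ← h2, Submodule.span_le]
  rintro _ ⟨w, rfl⟩
  exact Submodule.subset_span ⟨b w, rfl⟩

lemma finrank_H (T : KTheory) (L : Type) [Field L] [NumberField L] :
    FiniteDimensional ℚ (T.H L) ∧ Module.finrank ℚ (T.H L) = Fintype.card (InfinitePlace L) := by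
  obtain ⟨b, -⟩ := T.borel L
  exact ⟨b.finiteDimensional_of_finite, Module.finrank_eq_card_basis b⟩

lemma regC_inj (T : KTheory) (L : Type) [Field L] [NumberField L] :
    Function.Injective (regC T (L := L)) := by
  classical
  obtain ⟨b, hb⟩ := T.borel L
  rw [Fintype.linearIndependent_iff] at hb
  rw [injective_iff_map_eq_zero]
  intro x hx
  have h1 : T.reg x = 0 := by
    funext w
    have := congrFun hx w
    rw [regC_apply, Pi.zero_apply] at this
    rw [Pi.zero_apply]
    exact_mod_cast this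
  rw [← b.sum_repr x, map_sum] at h1
  have h2 : ∑ i, ((b.repr x i : ℚ) : ℝ) • T.reg (b i) = 0 := by
    rw [← h1]
    refine Finset.sum_congr rfl fun i _ => ?_
    rw [map_smul]
    funext w
    simp [Rat.smul_def]
  have h3 := hb _ h2
  apply b.ext_elem
  intro i
  have := h3 i
  rw [map_zero, Finsupp.zero_apply]
  exact_mod_cast this

lemma exists_ext (f : (InfinitePlace L → ℚ) →ₗ[ℚ] T.H L) :
    ∃ F : (InfinitePlace L → ℂ) →ₗ[ℂ] (InfinitePlace L → ℂ),
      ∀ x : InfinitePlace L → ℚ, F (toC L x) = regC T (f x) :=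
  lift_toC ((regC T) ∘ₗ f)

variable {K : Type} [Field K] [NumberField K] [Algebra K L]

lemma BorelMap.surj (φ : BorelMap K L T k) : Function.Surjective φ.Lam := by
  rw [← LinearMap.range_eq_top, eq_top_iff, ← regC_span T L, Submodule.span_le]
  rintro _ ⟨u, rfl⟩
  refine ⟨(Real.pi : ℂ) ^ (k - 1) • toC L (φ.phi.symm u), ?_⟩
  rw [map_smul, φ.spec', LinearEquiv.apply_symm_apply, smul_smul, mul_inv_cancel₀ (pi_ne k), one_smul]

lemma BorelMap.inj (φ : BorelMap K L T k) : Function.Injective φ.Lam :=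
  LinearMap.injective_iff_surjective.mpr φ.surj

end basic

section exist

variable {L : Type} [Field L] [NumberField L] (K : Type) [Field K] [NumberField K] [Algebra K L]

/-- an equivariant map -/
noncomputable def fMap (w : InfinitePlace L) (u : T.H L) : (InfinitePlace L → ℚ) →ₗ[ℚ] T.H L where
  toFun x := ∑ᶠ g : L ≃ₐ[K] L, x (g • w) • T.map (RingHomClass.toRingHom g) u
  map_add' := by
    intro x y
    have : Fintype (L ≃ₐ[K] L) := Fintype.ofFinite _
    rw [finsum_eq_sum_of_fintype, finsum_eq_sum_of_fintype, finsum_eq_sum_of_fintype,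
      ← Finset.sum_add_distrib]
    refine Finset.sum_congr rfl fun g _ => ?_
    rw [← add_smul]
    rfl
  map_smul' := by
    intro c x
    have : Fintype (L ≃ₐ[K] L) := Fintype.ofFinite _
    rw [finsum_eq_sum_of_fintype, finsum_eq_sum_of_fintype, RingHom.id_apply, Finset.smul_sum]
    refine Finset.sum_congr rfl fun g _ => ?_
    rw [smul_smul]
    rfl

lemma regC_fMap (w : InfinitePlace L) (u : T.H L) (x : InfinitePlace L → ℚ)
    [Fintype (L ≃ₐ[K] L)] :
    regC T (fMap K w u x) = ∑ g : L ≃ₐ[K] L, ((x (g • w) : ℚ) : ℂ) • rep K L ℂ g (regC T u) := by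
  change regC T (∑ᶠ g : L ≃ₐ[K] L, x (g • w) • T.map (RingHomClass.toRingHom g) u) = _
  rw [finsum_eq_sum_of_fintype, map_sum]
  refine Finset.sum_congr rfl fun g _ => ?_
  rw [map_smul, regC_map]
  funext v
  simp [Rat.smul_def]

/-- **the isomorphism exists** -/
theorem exists_BorelMap (T : KTheory) (k : ℕ) : Nonempty (BorelMap K L T k) := by
  classical
  have hft : Fintype (L ≃ₐ[K] L) := Fintype.ofFinite _
  have h1 : ∀ w : InfinitePlace L, ∃ c : T.H L →₀ ℂ,
      (c.sum fun u r => r • regC T u) = (Pi.single w 1 : InfinitePlace L → ℂ) := by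
    intro w
    have h2 : (Pi.single w 1 : InfinitePlace L → ℂ) ∈
        Submodule.span ℂ (Set.range (regC T (L := L))) := by
      rw [regC_span]; exact Submodule.mem_top
    exact Finsupp.mem_span_range_iff_exists_finsupp.mp h2
  choose c hc using h1
  let S : Finset (T.H L) := Finset.univ.biUnion fun w => (c w).support
  have hc' : ∀ w, ∑ u : S, c w u • regC T (u : T.H L) = (Pi.single w 1 : InfinitePlace L → ℂ) := by
    intro w
    rw [← hc w, Finsupp.sum, Finset.sum_coe_sort S (fun u => c w u • regC T u)]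
    symm
    apply Finset.sum_subset (Finset.subset_biUnion_of_mem _ (Finset.mem_univ w))
    intro u _ hu
    rw [Finsupp.notMem_support_iff.mp hu, zero_smul]
  choose E hE using fun i : InfinitePlace L × S =>
    exists_ext (L := L) (fMap K i.1 (i.2 : T.H L))
  have hEx : ∀ (i : InfinitePlace L × S) (x : InfinitePlace L → ℚ), E i (toC L x)
      = ∑ g : L ≃ₐ[K] L, ((x (g • i.1) : ℚ) : ℂ) • (rep K L ℂ g (regC T (i.2 : T.H L))) := by
    intro i x
    rw [hE, regC_fMap]
  have hsum : (∑ i : InfinitePlace L × S, c i.1 i.2 • E i)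
      = (Fintype.card (L ≃ₐ[K] L) : ℂ) • LinearMap.id := by
    apply ext_toC
    intro x
    rw [LinearMap.sum_apply, Fintype.sum_prod_type]
    have h3 : ∀ (w : InfinitePlace L) (u : S), (c w u • E (w, u)) (toC L x)
        = ∑ g : L ≃ₐ[K] L, ((x (g • w) : ℚ) : ℂ) • (rep K L ℂ g (c w u • regC T (u : T.H L))) := by
      intro w u
      rw [LinearMap.smul_apply, hEx, Finset.smul_sum]
      refine Finset.sum_congr rfl fun g _ => ?_
      rw [map_smul, smul_comm]
    have h4 : ∀ w : InfinitePlace L, ∑ u : S, (c w u • E (w, u)) (toC L x)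
        = ∑ g : L ≃ₐ[K] L, ((x (g • w) : ℚ) : ℂ) • (rep K L ℂ g (Pi.single w 1)) := by
      intro w
      rw [Finset.sum_congr rfl (fun u _ => h3 w u), Finset.sum_comm]
      refine Finset.sum_congr rfl fun g _ => ?_
      rw [← Finset.smul_sum, ← map_sum, hc']
    rw [Finset.sum_congr rfl (fun w _ => h4 w), Finset.sum_comm]
    have h5 : ∀ g : L ≃ₐ[K] L, ∑ w : InfinitePlace L,
        ((x (g • w) : ℚ) : ℂ) • (rep K L ℂ g (Pi.single w 1)) = toC L x := by
      intro g
      have h6 : ∀ w, ((x (g • w) : ℚ) : ℂ) • (rep K L ℂ g (Pi.single w 1))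
          = rep K L ℂ g ((rep K L ℂ g⁻¹ (toC L x) w) • (Pi.single w 1 : InfinitePlace L → ℂ)) := by
        intro w
        rw [map_smul, rep_apply, inv_inv]
        rfl
      rw [Finset.sum_congr rfl (fun w _ => h6 w), ← map_sum, ← eq_sum,
        ← Module.End.mul_apply, ← map_mul, mul_inv_cancel, map_one, Module.End.one_apply]
    rw [Finset.sum_congr rfl (fun g _ => h5 g), Finset.sum_const, Finset.card_univ,
      ← Nat.cast_smul_eq_nsmul ℂ]
    rfl
  have hdet : LinearMap.det (∑ i : InfinitePlace L × S, c i.1 i.2 • E i) ≠ 0 := by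
    rw [hsum, LinearMap.det_smul, LinearMap.det_id, mul_one]
    apply pow_ne_zero
    exact_mod_cast Fintype.card_ne_zero
  obtain ⟨q, hq⟩ := exists_rat E (fun i => c i.1 i.2) hdet
  let f : (InfinitePlace L → ℚ) →ₗ[ℚ] T.H L :=
    ∑ i : InfinitePlace L × S, q i • fMap K i.1 (i.2 : T.H L)
  let F : (InfinitePlace L → ℂ) →ₗ[ℂ] (InfinitePlace L → ℂ) :=
    ∑ i : InfinitePlace L × S, ((q i : ℚ) : ℂ) • E i
  have hF : ∀ x : InfinitePlace L → ℚ, F (toC L x) = regC T (f x) := by
    intro x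
    simp only [F, f, LinearMap.sum_apply, LinearMap.smul_apply, map_sum, map_smul]
    refine Finset.sum_congr rfl fun i _ => ?_
    rw [← hE]
    funext v
    rw [Pi.smul_apply, Pi.smul_apply, Rat.smul_def]
    rfl
  have hfinj : Function.Injective f := by
    rw [injective_iff_map_eq_zero]
    intro x hx
    have h1 : F (toC L x) = 0 := by
      rw [hF, hx, map_zero]
    have h2 : Function.Injective F := by
      by_contra hcon
      apply hq
      by_contra hne
      apply hcon
      have := LinearMap.isUnit_iff_ker_eq_bot F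
      have h3 : IsUnit F := (LinearMap.isUnit_iff_isUnit_det F).mpr (isUnit_iff_ne_zero.mpr hne)
      exact LinearMap.ker_eq_bot.mp (this.mp h3)
    have h3 : toC L x = 0 := h2 (by rw [h1, map_zero])
    funext w
    have h4 := congrFun h3 w
    change ((x w : ℚ) : ℂ) = 0 at h4
    exact_mod_cast h4
  obtain ⟨hfd, hle⟩ := finrank_H T L
  have hbij : Function.Bijective f := by
    refine ⟨hfinj, ?_⟩
    have h6 : Module.finrank ℚ (InfinitePlace L → ℚ) = Module.finrank ℚ (T.H L) := by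
      rw [hle, Module.finrank_pi]
    exact (LinearMap.injective_iff_surjective_of_finrank_eq_finrank h6).mp hfinj
  refine ⟨{ phi := LinearEquiv.ofBijective f hbij
            equi := ?_
            Lam := ((Real.pi : ℂ) ^ (k - 1))⁻¹ • F
            spec := ?_ }⟩
  · intro g x
    apply regC_inj
    change regC T (f (rep K L ℚ g x)) = regC T (T.map _ (f x))
    rw [regC_map, ← hF, ← hF, toC_rep]
    have hcomm : ∀ a, F (rep K L ℂ g a) = rep K L ℂ g (F a) := by
      have h : F ∘ₗ (rep K L ℂ g) = (rep K L ℂ g) ∘ₗ F := by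
        apply ext_toC
        intro x
        rw [LinearMap.comp_apply, LinearMap.comp_apply, ← toC_rep]
        simp only [F, LinearMap.sum_apply, LinearMap.smul_apply, map_sum, map_smul]
        refine Finset.sum_congr rfl fun i _ => ?_
        rw [hEx, hEx, map_sum]
        congr 1
        rw [← Equiv.sum_comp (Equiv.mulLeft g)]
        refine Finset.sum_congr rfl fun h _ => ?_
        rw [map_smul, rep_apply, ← mul_smul]
        change ((x ((g⁻¹ * (g * h)) • i.1) : ℚ) : ℂ) • rep K L ℂ (g * h) _ = _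
        rw [inv_mul_cancel_left, map_mul]
        rfl
      exact fun a => LinearMap.congr_fun h a
    exact hcomm _
  · intro x w
    rw [LinearMap.smul_apply, map_smul, smul_smul, inv_mul_cancel₀ (pi_ne k), one_smul, hF]
    rfl

end exist

section reg

variable {K L : Type} [Field K] [NumberField K] [Field L] [NumberField L] [Algebra K L]

/-- the traces which belong to the regulator -/
noncomputable def tseq (Λ : (InfinitePlace L → ℂ) →ₗ[ℂ] (InfinitePlace L → ℂ))
    (χ : (L ≃ₐ[K] L) → ℂ) (j : ℕ) : ℂ :=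
  (Nat.card (L ≃ₐ[K] L) : ℂ)⁻¹ *
    ∑ᶠ g : L ≃ₐ[K] L, χ g * LinearMap.trace ℂ (InfinitePlace L → ℂ) (rep K L ℂ g ∘ₗ (Λ ^ j))

lemma IsReg.detOf {φ : BorelMap K L T k} {χ : (L ≃ₐ[K] L) → ℂ} {r : ℂ} (h : IsReg φ χ r) :
    DetOf (tseq φ.Lam χ) r := by
  obtain ⟨V, _, _, _, ρ, hρ, rfl⟩ := h.elim
  exact detOf_homDet hρ _ _ _

lemma IsReg.exists (φ : BorelMap K L T k) {χ : (L ≃ₐ[K] L) → ℂ} (h : IsChar χ) :
    ∃ r, IsReg φ χ r := by
  obtain ⟨V, _, _, _, ρ, hρ⟩ := isChar_inv h
  exact ⟨_, isReg_homDet φ ρ fun g => (congrFun hρ g).symm⟩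

lemma IsReg.ne {φ : BorelMap K L T k} {χ : (L ≃ₐ[K] L) → ℂ} {r : ℂ} (h : IsReg φ χ r) : r ≠ 0 := by
  obtain ⟨V, _, _, _, ρ, hρ, rfl⟩ := h.elim
  exact det_homMap_ne _ _ _ _ φ.inj

lemma IsReg.unique {φ : BorelMap K L T k} {χ : (L ≃ₐ[K] L) → ℂ} {r r' : ℂ} (h : IsReg φ χ r)
    (h' : IsReg φ χ r') : r' = r := h.detOf.unique h'.detOf

lemma IsReg.add {φ : BorelMap K L T k} {χ χ' : (L ≃ₐ[K] L) → ℂ} {r r' s : ℂ} (h : IsReg φ χ r)
    (h' : IsReg φ χ' r') (hs : IsReg φ (χ + χ') s) : s = r * r' := by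
  refine hs.detOf.add h.detOf h'.detOf fun k => ?_
  have : Fintype (L ≃ₐ[K] L) := Fintype.ofFinite _
  unfold tseq
  rw [finsum_eq_sum_of_fintype, finsum_eq_sum_of_fintype, finsum_eq_sum_of_fintype, ← mul_add,
    ← Finset.sum_add_distrib]
  congr 1
  refine Finset.sum_congr rfl fun g _ => ?_
  rw [Pi.add_apply, add_mul]

/-- an equivariant automorphism of the rational functions has rational traces -/
lemma trace_rat' {α : (InfinitePlace L → ℚ) →ₗ[ℚ] (InfinitePlace L → ℚ)}
    {B : (InfinitePlace L → ℂ) →ₗ[ℂ] (InfinitePlace L → ℂ)}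
    (h : ∀ x, B (toC L x) = toC L (α x)) :
    ∃ q : ℚ, LinearMap.trace ℂ _ B = q := by
  classical
  refine ⟨LinearMap.trace ℚ _ α, ?_⟩
  rw [LinearMap.trace_eq_matrix_trace ℂ (Pi.basisFun ℂ (InfinitePlace L)),
    LinearMap.trace_eq_matrix_trace ℚ (Pi.basisFun ℚ (InfinitePlace L)), Matrix.trace,
    Matrix.trace, Rat.cast_sum]
  refine Finset.sum_congr rfl fun i _ => ?_
  rw [Matrix.diag_apply, Matrix.diag_apply, LinearMap.toMatrix_apply, LinearMap.toMatrix_apply,
    Pi.basisFun_apply, Pi.basisFun_apply, Pi.basisFun_repr, Pi.basisFun_repr, ← single_toC, h]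
  rfl

/-- changing the isomorphism -/
theorem IsReg.change {φ φ' : BorelMap K L T k} {χ : (L ≃ₐ[K] L) → ℂ} {r r' s s' : ℂ}
    (σ : ℂ →+* ℂ) (hχ : IsChar χ) (hχ' : IsChar (fun g => σ (χ g)))
    (h : IsReg φ χ r) (h' : IsReg φ' χ r')
    (hs : IsReg φ (fun g => σ (χ g)) s) (hs' : IsReg φ' (fun g => σ (χ g)) s') :
    s' * σ r = s * σ r' := by
  let α : (InfinitePlace L → ℚ) ≃ₗ[ℚ] (InfinitePlace L → ℚ) := φ'.phi.trans φ.phi.symm
  have hαe : ∀ (g : L ≃ₐ[K] L) x, α (rep K L ℚ g x) = rep K L ℚ g (α x) := by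
    intro g x
    apply φ.phi.injective
    change φ.phi (φ.phi.symm (φ'.phi _)) = φ.phi (rep K L ℚ g (φ.phi.symm (φ'.phi x)))
    rw [LinearEquiv.apply_symm_apply, φ.equi, LinearEquiv.apply_symm_apply, φ'.equi]
  let cC : (InfinitePlace L → ℚ) →ₗ[ℚ] (InfinitePlace L → ℂ) :=
    { toFun := fun x => toC L x
      map_add' := fun x y => toC_add x y
      map_smul' := fun c x => by
        funext w
        change ((c * x w : ℚ) : ℂ) = c • ((x w : ℚ) : ℂ)
        rw [Rat.smul_def]
        push_cast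
        rfl }
  obtain ⟨B, hB⟩ := lift_toC (cC ∘ₗ (α : (InfinitePlace L → ℚ) →ₗ[ℚ] (InfinitePlace L → ℚ)))
  have hB' : ∀ x, B (toC L x) = toC L (α x) := hB
  have hBpow : ∀ (k : ℕ) (x : InfinitePlace L → ℚ), (B ^ k) (toC L x)
      = toC L (((α : (InfinitePlace L → ℚ) →ₗ[ℚ] (InfinitePlace L → ℚ)) ^ k) x) := by
    intro k
    induction k with
    | zero => intro x; rfl
    | succ k ih =>
      intro x
      rw [pow_succ, Module.End.mul_apply, hB', ih, pow_succ, Module.End.mul_apply]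
      rfl
  have hBe : ∀ (g : L ≃ₐ[K] L) a, B (rep K L ℂ g a) = rep K L ℂ g (B a) := by
    intro g a
    have h1 : B ∘ₗ (rep K L ℂ g) = (rep K L ℂ g) ∘ₗ B := by
      apply ext_toC
      intro x
      rw [LinearMap.comp_apply, LinearMap.comp_apply, ← toC_rep, hB', hB', hαe, toC_rep]
    exact LinearMap.congr_fun h1 a
  have hcomp : φ'.Lam = φ.Lam ∘ₗ B := by
    apply ext_toC
    intro x
    rw [LinearMap.comp_apply, hB', φ'.spec', φ.spec']
    change _ = _ • regC T (φ.phi (φ.phi.symm (φ'.phi x)))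
    rw [LinearEquiv.apply_symm_apply]
  have hdet : ∀ {θ : (L ≃ₐ[K] L) → ℂ} {u u' : ℂ}, IsReg φ θ u → IsReg φ' θ u' → IsChar θ →
      ∃ d, DetOf (tseq B θ) d ∧ u' = u * d := by
    intro θ u u' hu hu' hθ
    obtain ⟨V, _, _, _, ρ, hρ⟩ := isChar_inv hθ
    have hρ' : ∀ g, ρ.character g = θ g⁻¹ := fun g => (congrFun hρ g).symm
    have e1 : IsReg φ θ (homDet ρ (rep K L ℂ) φ.Lam φ.comm) := isReg_homDet φ ρ hρ'
    have e2 : IsReg φ' θ (homDet ρ (rep K L ℂ) φ'.Lam φ'.comm) := isReg_homDet φ' ρ hρ'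
    refine ⟨homDet ρ (rep K L ℂ) B hBe, detOf_homDet hρ' _ _ _, ?_⟩
    rw [e1.unique hu, e2.unique hu']
    exact homDet_comp ρ (rep K L ℂ) φ.Lam B φ'.Lam φ.comm hBe φ'.comm hcomp
  obtain ⟨d, hd, rfl⟩ := hdet h h' hχ
  obtain ⟨d', hd', rfl⟩ := hdet hs hs' hχ'
  have hdd : d' = σ d := by
    refine hd.sigma hd' σ fun k => ?_
    have : Fintype (L ≃ₐ[K] L) := Fintype.ofFinite _
    unfold tseq
    rw [finsum_eq_sum_of_fintype, finsum_eq_sum_of_fintype, map_mul, map_inv₀, map_natCast,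
      map_sum]
    congr 1
    refine Finset.sum_congr rfl fun g _ => ?_
    rw [map_mul]
    congr 1
    obtain ⟨q, hq⟩ := trace_rat'
      (α := rep K L ℚ g ∘ₗ ((α : (InfinitePlace L → ℚ) →ₗ[ℚ] (InfinitePlace L → ℚ)) ^ k))
      (B := rep K L ℂ g ∘ₗ B ^ k) (by
        intro x
        rw [LinearMap.comp_apply, hBpow, ← toC_rep]
        rfl)
    rw [hq, map_ratCast]
  rw [hdd, map_mul]
  ring

end reg

section ind

variable {K F L : Type} [Field K] [NumberField K] [Field F] [NumberField F] [Field L]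
  [NumberField L] [Algebra K F] [Algebra F L] [Algebra K L] [IsScalarTower K F L]

/-- the isomorphism over a larger base field -/
def BorelMap.res (φ : BorelMap K L T k) (F : Type) [Field F] [NumberField F] [Algebra K F]
    [Algebra F L] [IsScalarTower K F L] : BorelMap F L T k where
  phi := φ.phi
  equi g x := φ.equi (g.restrictScalars K) x
  Lam := φ.Lam
  spec := φ.spec

/-- **induction** -/
theorem IsReg.ind {φ : BorelMap K L T k} {χ : (L ≃ₐ[F] L) → ℂ} {r r' : ℂ}
    (h : IsReg (φ.res F) χ r) (h' : IsReg φ (indChar K F L χ) r') : r' = r := by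
  classical
  refine h.detOf.sigma h'.detOf (RingHom.id ℂ) fun k => ?_
  rw [RingHom.id_apply]
  have : Fintype (L ≃ₐ[K] L) := Fintype.ofFinite _
  have : Fintype (L ≃ₐ[F] L) := Fintype.ofFinite _
  unfold tseq
  rw [finsum_eq_sum_of_fintype, finsum_eq_sum_of_fintype]
  have hG : (Nat.card (L ≃ₐ[K] L) : ℂ) ≠ 0 := by exact_mod_cast Nat.card_pos.ne'
  let t : (L ≃ₐ[K] L) → ℂ := fun g =>
    LinearMap.trace ℂ (InfinitePlace L → ℂ) (rep K L ℂ g ∘ₗ (φ.Lam ^ k))
  have ht : ∀ x g : L ≃ₐ[K] L, t (x * g * x⁻¹) = t g := by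
    intro x g
    change LinearMap.trace ℂ (InfinitePlace L → ℂ) (rep K L ℂ (x * g * x⁻¹) ∘ₗ (φ.Lam ^ k)) = _
    have h1 : rep K L ℂ (x * g * x⁻¹) ∘ₗ (φ.Lam ^ k)
        = rep K L ℂ x ∘ₗ (rep K L ℂ g ∘ₗ (φ.Lam ^ k) ∘ₗ rep K L ℂ x⁻¹) := by
      apply LinearMap.ext
      intro a
      rw [map_mul, map_mul]
      simp only [LinearMap.comp_apply, Module.End.mul_apply]
      rw [comm_pow φ.comm]
    rw [h1, LinearMap.trace_comp_comm']
    congr 1
    apply LinearMap.ext
    intro a
    simp only [LinearMap.comp_apply]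
    rw [← Module.End.mul_apply (rep K L ℂ x⁻¹), ← map_mul, inv_mul_cancel, map_one,
      Module.End.one_apply]
  have h2 : ∀ g : L ≃ₐ[K] L, indChar K F L χ g * t g
      = (Nat.card (L ≃ₐ[F] L) : ℂ)⁻¹ * ∑ x : L ≃ₐ[K] L, ∑ h : L ≃ₐ[F] L,
        (if x * h.restrictScalars K * x⁻¹ = g then χ h * t (h.restrictScalars K) else 0) := by
    intro g
    rw [indChar, finsum_eq_sum_of_fintype, mul_assoc, Finset.sum_mul]
    congr 1
    refine Finset.sum_congr rfl fun x _ => ?_
    rw [finsum_eq_sum_of_fintype, Finset.sum_mul]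
    refine Finset.sum_congr rfl fun h _ => ?_
    by_cases hg : h.restrictScalars K = x⁻¹ * g * x
    · rw [finsum_eq_single _ hg (fun h1 h2 => absurd rfl h2), if_pos (by rw [hg]; group), hg]
      have h3 := ht x⁻¹ g
      rw [inv_inv] at h3
      rw [h3]
    · rw [if_neg (fun h1 => hg (by rw [← h1]; group))]
      have : IsEmpty (h.restrictScalars K = x⁻¹ * g * x) := ⟨hg⟩
      rw [finsum_of_isEmpty, zero_mul]
  change (Nat.card (L ≃ₐ[K] L) : ℂ)⁻¹ * ∑ g, indChar K F L χ g * t g
    = (Nat.card (L ≃ₐ[F] L) : ℂ)⁻¹ * ∑ h : L ≃ₐ[F] L, χ h * t (h.restrictScalars K)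
  rw [Finset.sum_congr rfl (fun g _ => h2 g), ← Finset.mul_sum, Finset.sum_comm]
  have h4 : ∀ x : L ≃ₐ[K] L, ∑ g : L ≃ₐ[K] L, ∑ h : L ≃ₐ[F] L,
      (if x * h.restrictScalars K * x⁻¹ = g then χ h * t (h.restrictScalars K) else 0)
        = ∑ h : L ≃ₐ[F] L, χ h * t (h.restrictScalars K) := by
    intro x
    rw [Finset.sum_comm]
    refine Finset.sum_congr rfl fun h _ => ?_
    rw [Finset.sum_ite_eq Finset.univ, if_pos (Finset.mem_univ _)]
  rw [Finset.sum_congr rfl (fun x _ => h4 x), Finset.sum_const, Finset.card_univ,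
    ← Nat.card_eq_fintype_card, nsmul_eq_mul]
  field_simp

end ind

end Pool.Agent.U213.BE
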