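import Mathlib
import Pool.Agent.U213.BE.Reg

/-!
# The regulators of the characters: inflation
-/

set_option autoImplicit false
set_option linter.unusedSectionVars false

open NumberField

namespace Pool.Agent.U213.BE

open Pool.Agent.K4H74 Pool.Agent.K4H74.SC Pool.Agent.K4H74.ST

variable {T : KTheory} {k : ℕ}

section places

variable {L N : Type} [Field L] [NumberField L] [Field N] [NumberField N] [Algebra L N]

variable (L N) in
/-- the functions on the places of `L` as functions on the places of `N` -/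
def up (k : Type) [Field k] : (InfinitePlace L → k) →ₗ[k] (InfinitePlace N → k) where
  toFun b w := b (w.comap (algebraMap L N))
  map_add' _ _ := rfl
  map_smul' _ _ := rfl

lemma up_apply' {k : Type} [Field k] (b : InfinitePlace L → k) (w : InfinitePlace N) :
    up L N k b w = b (w.comap (algebraMap L N)) := rfl

lemma up_toC' (b : InfinitePlace L → ℚ) : up L N ℂ (toC L b) = toC N (up L N ℚ b) := rfl

lemma up_inj' {k : Type} [Field k] : Function.Injective (up L N k) := by
  have hfin : FiniteDimensional L N := Module.Finite.of_restrictScalars_finite ℚ L N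
  intro a b hab
  funext v
  obtain ⟨w, rfl⟩ := InfinitePlace.comap_surjective (k := L) (K := N) v
  exact congrFun hab w

lemma regC_up (T : KTheory) (x : T.H L) :
    regC T (T.map (algebraMap L N) x) = up L N ℂ (regC T x) := by
  funext w
  rw [regC_apply, T.reg_map, up_apply', regC_apply]

lemma map_inj (T : KTheory) : Function.Injective (T.map (algebraMap L N)) := by
  intro x y h
  apply regC_inj T L
  apply up_inj' (L := L) (N := N)
  rw [← regC_up, ← regC_up, h]

/-- rational linear forms extend to complex ones -/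
lemma lift_H (T : KTheory) (f : T.H N →ₗ[ℚ] ℚ) :
    ∃ F : (InfinitePlace N → ℂ) →ₗ[ℂ] ℂ, ∀ x : T.H N, F (regC T x) = ((f x : ℚ) : ℂ) := by
  classical
  obtain ⟨b, hb⟩ := T.borel N
  have hC : LinearIndependent ℂ fun w => regC T (b w) := indepC hb
  let B := basisOfLinearIndependentOfCardEqFinrank hC (by rw [Module.finrank_pi])
  have hB : ∀ w, B w = regC T (b w) := fun w =>
    congrFun (coe_basisOfLinearIndependentOfCardEqFinrank hC _) w
  refine ⟨B.constr ℂ fun w => ((f (b w) : ℚ) : ℂ), fun x => ?_⟩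
  conv_lhs => rw [← b.sum_repr x]
  conv_rhs => rw [← b.sum_repr x]
  rw [map_sum, map_sum, map_sum, Rat.cast_sum]
  refine Finset.sum_congr rfl fun w _ => ?_
  have h1 : regC T (b.repr x w • b w) = ((b.repr x w : ℚ) : ℂ) • B w := by
    rw [map_smul, hB]
    funext v
    simp [Rat.smul_def]
  rw [h1, map_smul, Module.Basis.constr_basis, map_smul, smul_eq_mul, smul_eq_mul]
  push_cast
  rfl

end places

section galois

variable {K L N : Type} [Field K] [NumberField K] [Field L] [NumberField L] [Field N]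
  [NumberField N] [Algebra K L] [Algebra L N] [Algebra K N] [IsScalarTower K L N] [IsGalois K L]
  [IsGalois K N]

lemma up_rep {k : Type} [Field k] (g : N ≃ₐ[K] N) (b : InfinitePlace L → k) :
    up L N k (rep K L k (AlgEquiv.restrictNormalHom L g) b) = rep K N k g (up L N k b) := by
  funext w
  rw [up_apply', rep_apply, rep_apply, up_apply', comap_smul' (L := L), map_inv]

variable (K) in
lemma up_surj' {k : Type} [Field k] (a : InfinitePlace N → k)
    (ha : ∀ h : N ≃ₐ[K] N, AlgEquiv.restrictNormalHom L h = 1 → rep K N k h a = a) :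
    ∃ b, up L N k b = a := by
  have hfin : FiniteDimensional L N := Module.Finite.of_restrictScalars_finite ℚ L N
  have hLN : IsGalois L N := IsGalois.tower_top_of_isGalois K L N
  have h1 : ∀ w w' : InfinitePlace N, w.comap (algebraMap L N) = w'.comap (algebraMap L N) →
      a w = a w' := by
    intro w w' hw
    obtain ⟨σ, hσ⟩ := InfinitePlace.exists_smul_eq_of_comap_eq hw
    let h : N ≃ₐ[K] N := (σ.restrictScalars K)
    have hh : AlgEquiv.restrictNormalHom L h⁻¹ = 1 := by
      rw [map_inv, inv_eq_one]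
      ext x
      apply FaithfulSMul.algebraMap_injective L N
      have h2 := AlgEquiv.restrictNormal_commutes h L x
      change algebraMap L N (AlgEquiv.restrictNormalHom L h x) = _
      have h3 : AlgEquiv.restrictNormalHom L h x = h.restrictNormal L x := rfl
      rw [h3, h2]
      exact σ.commutes x
    have h4 := congrFun (ha h⁻¹ hh) w
    rw [rep_apply, inv_inv] at h4
    have h5 : h • w = w' := hσ
    rw [← h4, h5]
  choose s hs using fun v : InfinitePlace L => InfinitePlace.comap_surjective (k := L) (K := N) v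
  refine ⟨fun v => a (s v), ?_⟩
  funext w
  exact h1 _ _ (hs _)

/-- Galois descent -/
lemma descent (T : KTheory) (z : T.H N)
    (hz : ∀ h : N ≃ₐ[K] N, AlgEquiv.restrictNormalHom L h = 1 →
      T.map (RingHomClass.toRingHom h) z = z) : ∃ y : T.H L, T.map (algebraMap L N) y = z := by
  classical
  by_contra hcon
  have hmem : z ∉ LinearMap.range (T.map (algebraMap L N)) := fun h => hcon h
  obtain ⟨f, hf1, hf2⟩ := Submodule.exists_le_ker_of_notMem hmem
  obtain ⟨F, hF⟩ := lift_H T f
  obtain ⟨a, ha⟩ := up_surj' (L := L) K (regC T z) (fun h hh => by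
    rw [← regC_map, hz h hh])
  have hspan : a ∈ Submodule.span ℂ (Set.range (regC T (L := L))) := by
    rw [regC_span]; exact Submodule.mem_top
  have h2 : F (up L N ℂ a) = 0 := by
    have h3 : Submodule.span ℂ (Set.range (regC T (L := L))) ≤ LinearMap.ker (F ∘ₗ up L N ℂ) := by
      rw [Submodule.span_le]
      rintro _ ⟨x, rfl⟩
      change F (up L N ℂ (regC T x)) = 0
      rw [← regC_up, hF]
      have : f (T.map (algebraMap L N) x) = 0 := hf2 ⟨x, rfl⟩
      rw [this, Rat.cast_zero]
    exact h3 hspan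
  rw [ha, hF] at h2
  exact hf1 (by exact_mod_cast h2)

lemma res_restrict' (h : N ≃ₐ[L] N) :
    AlgEquiv.restrictNormalHom L (h.restrictScalars K : N ≃ₐ[K] N) = 1 := by
  ext x
  apply FaithfulSMul.algebraMap_injective L N
  have h2 := AlgEquiv.restrictNormal_commutes (h.restrictScalars K : N ≃ₐ[K] N) L x
  change algebraMap L N ((h.restrictScalars K : N ≃ₐ[K] N).restrictNormal L x) = _
  rw [h2]
  exact h.commutes x

/-- **the isomorphism for a subextension** -/
theorem BorelMap.down (φ : BorelMap K N T k) :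
    ∃ φ' : BorelMap K L T k, ∀ a : InfinitePlace L → ℂ,
      φ.Lam (up L N ℂ a) = up L N ℂ (φ'.Lam a) := by
  classical
  let ι := T.map (algebraMap L N)
  have hι : Function.Injective ι := map_inj T
  have hmem : ∀ x : InfinitePlace L → ℚ, φ.phi (up L N ℚ x) ∈ LinearMap.range ι := by
    intro x
    refine descent (K := K) T _ fun h hh => ?_
    rw [← φ.equi, ← up_rep, hh, map_one]
    rfl
  let f : (InfinitePlace L → ℚ) →ₗ[ℚ] T.H L :=
    (LinearEquiv.ofInjective ι hι).symm.toLinearMap ∘ₗ
      LinearMap.codRestrict (LinearMap.range ι)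
        ((φ.phi : (InfinitePlace N → ℚ) →ₗ[ℚ] T.H N) ∘ₗ up L N ℚ) hmem
  have hf : ∀ x, ι (f x) = φ.phi (up L N ℚ x) := by
    intro x
    have h1 : (LinearEquiv.ofInjective ι hι) (f x) = LinearMap.codRestrict (LinearMap.range ι)
        ((φ.phi : (InfinitePlace N → ℚ) →ₗ[ℚ] T.H N) ∘ₗ up L N ℚ) hmem x :=
      LinearEquiv.apply_symm_apply _ _
    exact congrArg Subtype.val h1
  have hfinj : Function.Injective f := by
    rw [injective_iff_map_eq_zero]
    intro x hx
    have h1 := hf x
    rw [hx, map_zero] at h1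
    have h2 : up L N ℚ x = 0 := φ.phi.injective (by rw [← h1, map_zero])
    exact up_inj' (L := L) (N := N) (by rw [h2, map_zero])
  obtain ⟨hfd, hle⟩ := finrank_H T L
  have hbij : Function.Bijective f := by
    refine ⟨hfinj, ?_⟩
    have h6 : Module.finrank ℚ (InfinitePlace L → ℚ) = Module.finrank ℚ (T.H L) := by
      rw [hle, Module.finrank_pi]
    exact (LinearMap.injective_iff_surjective_of_finrank_eq_finrank h6).mp hfinj
  obtain ⟨F, hF⟩ := exists_ext (L := L) f
  refine ⟨{ phi := LinearEquiv.ofBijective f hbij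
            equi := ?_
            Lam := ((Real.pi : ℂ) ^ (k - 1))⁻¹ • F
            spec := ?_ }, ?_⟩
  · intro g x
    change f (rep K L ℚ g x) = T.map _ (f x)
    obtain ⟨g', rfl⟩ := AlgEquiv.restrictNormalHom_surjective (F := K) (K₁ := L) N g
    apply hι
    apply regC_inj T N
    rw [hf, up_rep, φ.equi, ← hf, regC_map]
    change rep K N ℂ g' (regC T (T.map (algebraMap L N) (f x))) =
      regC T (T.map (algebraMap L N) (T.map _ (f x)))
    rw [regC_up, regC_up, regC_map, up_rep]
  · intro x w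
    rw [LinearMap.smul_apply, map_smul, smul_smul, inv_mul_cancel₀ (pi_ne k), one_smul, hF]
    rfl
  · intro a
    change φ.Lam (up L N ℂ a) = up L N ℂ (((Real.pi : ℂ) ^ (k - 1))⁻¹ • F a)
    have h1 : φ.Lam ∘ₗ (up L N ℂ) = (up L N ℂ) ∘ₗ (((Real.pi : ℂ) ^ (k - 1))⁻¹ • F) := by
      apply ext_toC
      intro x
      rw [LinearMap.comp_apply, LinearMap.comp_apply, up_toC', φ.spec', ← hf]
      change _ • regC T (T.map (algebraMap L N) (f x)) = _
      rw [regC_up, LinearMap.smul_apply, map_smul, hF]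
    exact LinearMap.congr_fun h1 a

/-- **inflation** -/
theorem IsReg.infl {φ : BorelMap K N T k} {φ' : BorelMap K L T k}
    (hφ : ∀ a : InfinitePlace L → ℂ, φ.Lam (up L N ℂ a) = up L N ℂ (φ'.Lam a))
    {χ : (L ≃ₐ[K] L) → ℂ} {r r' : ℂ} (h : IsReg φ' χ r)
    (h' : IsReg φ (fun g => χ (AlgEquiv.restrictNormalHom L g)) r') : r' = r := by
  classical
  refine h.detOf.sigma h'.detOf (RingHom.id ℂ) fun k => ?_
  rw [RingHom.id_apply]
  have hft : Fintype (L ≃ₐ[K] L) := Fintype.ofFinite _
  have hft' : Fintype (N ≃ₐ[K] N) := Fintype.ofFinite _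
  let π : (N ≃ₐ[K] N) →* (L ≃ₐ[K] L) := AlgEquiv.restrictNormalHom L
  have hπ : Function.Surjective π := AlgEquiv.restrictNormalHom_surjective N
  have hker : ∀ x : L ≃ₐ[K] L, (Finset.univ.filter fun g => π g = x).card = Nat.card π.ker := by
    intro x
    obtain ⟨y, rfl⟩ := hπ x
    rw [← Fintype.card_subtype, ← Nat.card_eq_fintype_card]
    refine Nat.card_congr
      { toFun := fun g => ⟨g.1 * y⁻¹, by
          rw [MonoidHom.mem_ker, map_mul, map_inv, g.2, mul_inv_cancel]⟩
        invFun := fun h => ⟨h.1 * y, by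
          rw [map_mul, (MonoidHom.mem_ker.mp h.2), one_mul]⟩
        left_inv := fun g => Subtype.ext (by simp)
        right_inv := fun h => Subtype.ext (by simp) }
  have hcard : Nat.card (N ≃ₐ[K] N) = Nat.card π.ker * Nat.card (L ≃ₐ[K] L) := by
    have h1 := π.ker.index_mul_card
    rw [Subgroup.index_ker, MonoidHom.range_eq_top.mpr hπ, Subgroup.card_top] at h1
    rw [← h1, mul_comm]
  have hkc : (Nat.card π.ker : ℂ) ≠ 0 := by exact_mod_cast Nat.card_pos.ne'
  unfold tseq
  rw [finsum_eq_sum_of_fintype, finsum_eq_sum_of_fintype, hcard]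
  let A : (InfinitePlace N → ℂ) →ₗ[ℂ] (InfinitePlace N → ℂ) :=
    ∑ g : N ≃ₐ[K] N, χ (π g) • (rep K N ℂ g ∘ₗ (φ.Lam ^ k))
  let B : (InfinitePlace L → ℂ) →ₗ[ℂ] (InfinitePlace L → ℂ) :=
    ∑ g : L ≃ₐ[K] L, χ g • (rep K L ℂ g ∘ₗ (φ'.Lam ^ k))
  have hpow : ∀ (k : ℕ) (a : InfinitePlace L → ℂ),
      (φ.Lam ^ k) (up L N ℂ a) = up L N ℂ ((φ'.Lam ^ k) a) := by
    intro k
    induction k with
    | zero => intro a; rfl
    | succ k ih =>
      intro a
      rw [pow_succ, Module.End.mul_apply, hφ, ih, pow_succ, Module.End.mul_apply]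
  have hAB : ∀ a, A (up L N ℂ a) = (Nat.card π.ker : ℂ) • up L N ℂ (B a) := by
    intro a
    simp only [A, B, LinearMap.sum_apply, LinearMap.smul_apply, map_sum, map_smul,
      LinearMap.comp_apply, hpow]
    have h1 : ∀ g : N ≃ₐ[K] N, χ (π g) • rep K N ℂ g (up L N ℂ ((φ'.Lam ^ k) a))
        = (fun x : L ≃ₐ[K] L => χ x • up L N ℂ (rep K L ℂ x ((φ'.Lam ^ k) a))) (π g) := by
      intro g
      change _ = χ (π g) • up L N ℂ (rep K L ℂ (π g) ((φ'.Lam ^ k) a))
      rw [up_rep]
    rw [Finset.sum_congr rfl (fun g _ => h1 g), ← Finset.sum_fiberwise (s := Finset.univ)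
      (g := fun g : N ≃ₐ[K] N => π g), Finset.smul_sum]
    refine Finset.sum_congr rfl fun x _ => ?_
    rw [← hker x, Nat.cast_smul_eq_nsmul ℂ, ← Finset.sum_const]
    refine Finset.sum_congr rfl fun g hg => ?_
    rw [(Finset.mem_filter.mp hg).2]
  have hAinv : ∀ a, ∃ b, up L N ℂ b = A a := by
    intro a
    refine up_surj' K (A a) fun h hh => ?_
    simp only [A, LinearMap.sum_apply, LinearMap.smul_apply, map_sum, map_smul,
      LinearMap.comp_apply]
    conv_rhs => rw [← Equiv.sum_comp (Equiv.mulLeft h)]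
    refine Finset.sum_congr rfl fun g _ => ?_
    change χ (π g) • rep K N ℂ h (rep K N ℂ g ((φ.Lam ^ k) a))
      = χ (π (h * g)) • rep K N ℂ (h * g) ((φ.Lam ^ k) a)
    have h2 : π h = 1 := hh
    rw [map_mul, h2, one_mul, map_mul]
    rfl
  have htr : LinearMap.trace ℂ _ A = (Nat.card π.ker : ℂ) * LinearMap.trace ℂ _ B :=
    trace_transfer (up L N ℂ) up_inj' A B _ hAB hAinv
  have h4 : LinearMap.trace ℂ _ A = ∑ g : N ≃ₐ[K] N, χ (π g) *
      LinearMap.trace ℂ (InfinitePlace N → ℂ) (rep K N ℂ g ∘ₗ (φ.Lam ^ k)) := by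
    simp only [A, map_sum, map_smul, smul_eq_mul]
  have h5 : LinearMap.trace ℂ _ B = ∑ g : L ≃ₐ[K] L, χ g *
      LinearMap.trace ℂ (InfinitePlace L → ℂ) (rep K L ℂ g ∘ₗ (φ'.Lam ^ k)) := by
    simp only [B, map_sum, map_smul, smul_eq_mul]
  rw [← h5]
  change _ * (∑ g : N ≃ₐ[K] N, χ (π g) * _) = _
  rw [← h4, htr]
  push_cast
  field_simp

end galois

end Pool.Agent.U213.BE
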