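import Mathlib
import Pool.Agent.U213.BE.Defs

/-!
# Leading coefficients of the Artin L-functions at any point
-/

set_option autoImplicit false
set_option linter.unusedSectionVars false

open NumberField

namespace Pool.Agent.U213.BE

open Pool.Agent.K4H74 Pool.Agent.K4H74.ST Pool.Agent.K4H74.SK
open scoped Topology

variable {s₀ : ℂ}

section exist

lemma order_ne' {f : ℂ → ℂ} (hf : ∀ z, MeromorphicAt f z) (h : ∀ s : ℂ, 1 < s.re → f s ≠ 0) :
    meromorphicOrderAt f s₀ ≠ ⊤ := by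
  have hm : MeromorphicOn f Set.univ := fun z _ => hf z
  refine hm.meromorphicOrderAt_ne_top_of_isPreconnected isPreconnected_univ (Set.mem_univ (2 : ℂ))
    (Set.mem_univ s₀) ?_
  intro h1
  rw [meromorphicOrderAt_eq_top_iff] at h1
  have h2 : ∀ᶠ s in 𝓝[≠] (2 : ℂ), 1 < s.re :=
    (re_nhds (by norm_num)).filter_mono nhdsWithin_le_nhds
  obtain ⟨s, hs1, hs2⟩ := (h1.and h2).exists
  exact h s hs2 hs1

lemma lead_unique' {f f' : ℂ → ℂ} (hf : ∀ z, MeromorphicAt f z) (hf' : ∀ z, MeromorphicAt f' z)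
    (h : ∀ s : ℂ, 1 < s.re → f s = f' s) :
    meromorphicTrailingCoeffAt f s₀ = meromorphicTrailingCoeffAt f' s₀ := by
  apply meromorphicTrailingCoeffAt_congr_nhdsNE
  have hm : MeromorphicOn (f - f') Set.univ := fun z _ => (hf z).sub (hf' z)
  have h0 : meromorphicOrderAt (f - f') s₀ = ⊤ := by
    by_contra hcon
    refine hm.meromorphicOrderAt_ne_top_of_isPreconnected isPreconnected_univ
      (Set.mem_univ s₀) (Set.mem_univ 2) hcon ?_
    rw [meromorphicOrderAt_eq_top_iff]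
    have h2 : ∀ᶠ s in 𝓝[≠] (2 : ℂ), 1 < s.re :=
      (re_nhds (by norm_num)).filter_mono nhdsWithin_le_nhds
    filter_upwards [h2] with s hs
    rw [Pi.sub_apply, h s hs, sub_self]
  rw [meromorphicOrderAt_eq_top_iff] at h0
  filter_upwards [h0] with s hs
  exact sub_eq_zero.mp hs

lemma Cont_ne {y : Idx →₀ ℤ} {f : ℂ → ℂ} (h : Cont y f) : meromorphicTrailingCoeffAt f s₀ ≠ 0 :=
  (h.1 s₀).meromorphicTrailingCoeffAt_ne_zero (order_ne' h.1 fun s hs => by
    rw [h.2 s hs]; exact Complex.exp_ne_zero _)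

lemma Cont_unique {y : Idx →₀ ℤ} {f f' : ℂ → ℂ} (h : Cont y f) (h' : Cont y f') :
    meromorphicTrailingCoeffAt f s₀ = meromorphicTrailingCoeffAt f' s₀ :=
  lead_unique' h.1 h'.1 fun s hs => by rw [h.2 s hs, h'.2 s hs]

/-- the leading coefficient -/
noncomputable def leadHom' (s₀ : ℂ) : CC →+ Additive ℂˣ :=
  AddMonoidHom.mk' (fun y => Additive.ofMul (Units.mk0 _ (Cont_ne (s₀ := s₀) y.2.choose_spec))) (by
    intro y y'
    apply Additive.toMul.injective
    apply Units.ext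
    change meromorphicTrailingCoeffAt _ s₀ = meromorphicTrailingCoeffAt _ s₀
      * meromorphicTrailingCoeffAt _ s₀
    rw [← (y.2.choose_spec.1 s₀).meromorphicTrailingCoeffAt_mul (y'.2.choose_spec.1 s₀)]
    exact Cont_unique (y + y').2.choose_spec (y.2.choose_spec.add y'.2.choose_spec))

lemma leadHom'_apply (y : CC) {f : ℂ → ℂ} (h : Cont y f) :
    ((Additive.toMul (leadHom' s₀ y) : ℂˣ) : ℂ) = meromorphicTrailingCoeffAt f s₀ :=
  Cont_unique y.2.choose_spec h

/-- **Systems of leading coefficients exist.** -/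
theorem exists_isLeading' (s₀ : ℂ) : ∃ c : Pair → ℂ, IsLeading s₀ c := by
  classical
  obtain ⟨h, hh⟩ := (Module.Baer.of_divisible (Additive ℂˣ)).extension_property_addMonoidHom
    CC.subtype Subtype.val_injective (leadHom' s₀)
  have hsub : ∀ y : CC, h (y : Idx →₀ ℤ) = leadHom' s₀ y := fun y => DFunLike.congr_fun hh y
  let c : Pair → ℂ := fun x => if hx : IsChr x.2 then
    ((Additive.toMul (h (Finsupp.single ⟨x, hx⟩ 1)) : ℂˣ) : ℂ) else 1
  have hc : ∀ (x : Pair) (hx : IsChr x.2),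
      c x = ((Additive.toMul (h (Finsupp.single ⟨x, hx⟩ 1)) : ℂˣ) : ℂ) := fun x hx => dif_pos hx
  refine ⟨c, fun m x k f hx hf hs => ?_⟩
  let y : Idx →₀ ℤ := ∑ i, k i • Finsupp.single ⟨x i, hx i⟩ 1
  have hy : Cont y f := by
    refine ⟨hf, fun s hs' => ?_⟩
    obtain ⟨l, hl, hfl⟩ := hs s hs'
    rw [hfl]
    congr 1
    rw [map_sum]
    refine Finset.sum_congr rfl fun i _ => ?_
    rw [map_smul, logP, Finsupp.linearCombination_single, one_smul,
      (logL_hasSum hs' ⟨x i, hx i⟩).unique (hl i), zsmul_eq_mul]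
  have h1 := leadHom'_apply (s₀ := s₀) ⟨y, f, hy⟩ hy
  rw [← hsub] at h1
  rw [← h1]
  change _ = ((Additive.toMul (h y) : ℂˣ) : ℂ)
  rw [map_sum, toMul_sum, Units.coe_prod]
  refine Finset.prod_congr rfl fun i _ => ?_
  rw [map_zsmul, toMul_zsmul, Units.val_zpow_eq_zpow_val, hc (x i) (hx i)]

end exist

section lead

variable {E : Ext}

/-- relations between L-functions -/
lemma IsLeading.rel {c : Pair → ℂ} (hc : IsLeading s₀ c) {m : ℕ} (x : Fin m → Pair)
    (k : Fin m → ℤ) (hx : ∀ i, IsChr (x i).2)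
    (h : ∀ s : ℂ, 1 < s.re → ∀ l : Fin m → ℂ, (∀ i, HasSum (logTerm (x i).2 s) (l i)) →
      ∑ i, (k i : ℂ) * l i = 0) : ∏ i, c (x i) ^ k i = 1 := by
  rw [hc m x k (fun _ => 1) hx (fun z => analyticAt_const.meromorphicAt) ?_]
  · exact meromorphicTrailingCoeffAt_const
  · intro s hs
    have h1 := fun i => (logTerm_summable (x i).2 hs).hasSum
    refine ⟨_, h1, ?_⟩
    rw [h s hs _ h1, Complex.exp_zero]

lemma IsLeading.ne {c : Pair → ℂ} (hc : IsLeading s₀ c) {χ : G E → ℂ} (hχ : IsChr χ) :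
    c ⟨E, χ⟩ ≠ 0 := by
  have h := hc.rel ![⟨E, χ⟩, ⟨E, χ⟩] ![1, -1] (fun i => by fin_cases i <;> exact hχ)
    (fun s hs l hl => by
      have h0 := hl 0
      have h1 := hl 1
      simp only [Fin.sum_univ_two, Matrix.cons_val_zero, Matrix.cons_val_one] at *
      rw [h0.unique h1]
      push_cast
      ring)
  rw [Fin.prod_univ_two] at h
  intro h0
  simp only [Matrix.cons_val_zero, Matrix.cons_val_one, h0, zpow_one] at h
  simp at h

lemma IsLeading.eq {c : Pair → ℂ} (hc : IsLeading s₀ c) {E E' : Ext} {χ : G E → ℂ}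
    {χ' : G E' → ℂ} (hχ : IsChr χ) (hχ' : IsChr χ')
    (h : ∀ s l : ℂ, 1 < s.re → HasSum (logTerm χ' s) l → HasSum (logTerm χ s) l) :
    c ⟨E, χ⟩ = c ⟨E', χ'⟩ := by
  have h := hc.rel ![⟨E, χ⟩, ⟨E', χ'⟩] ![1, -1] (fun i => by
      fin_cases i
      · exact hχ
      · exact hχ')
    (fun s hs l hl => by
      have h0 : HasSum (logTerm χ s) (l 0) := hl 0
      have h1 : HasSum (logTerm χ' s) (l 1) := hl 1
      rw [Fin.sum_univ_two, h0.unique (h s _ hs h1)]
      simp)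
  rw [Fin.prod_univ_two] at h
  have h2 : c ⟨E, χ⟩ * (c ⟨E', χ'⟩)⁻¹ = 1 := by simpa using h
  exact (mul_inv_eq_one₀ (hc.ne hχ')).mp h2

lemma IsLeading.add {c : Pair → ℂ} (hc : IsLeading s₀ c) {E : Ext} {χ χ' : G E → ℂ}
    (hχ : IsChr χ) (hχ' : IsChr χ') (hs : IsChr (χ + χ')) :
    c ⟨E, χ + χ'⟩ = c ⟨E, χ⟩ * c ⟨E, χ'⟩ := by
  have h := hc.rel ![⟨E, χ + χ'⟩, ⟨E, χ⟩, ⟨E, χ'⟩] ![1, -1, -1] (fun i => by
      fin_cases i
      · exact hs
      · exact hχ
      · exact hχ')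
    (fun s hs l hl => by
      have h0 : HasSum (logTerm (χ + χ') s) (l 0) := hl 0
      have h1 : HasSum (logTerm χ s) (l 1) := hl 1
      have h2 : HasSum (logTerm χ' s) (l 2) := hl 2
      have h3 := hasSum_iff.mpr (SC.hasSum_add (hasSum_iff.mp h1) (hasSum_iff.mp h2))
      rw [Fin.sum_univ_three, h0.unique h3]
      simp)
  rw [Fin.prod_univ_three] at h
  have h2 : c ⟨E, χ + χ'⟩ * (c ⟨E, χ⟩)⁻¹ * (c ⟨E, χ'⟩)⁻¹ = 1 := by simpa using h
  have e1 := hc.ne hχ
  have e2 := hc.ne hχ'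
  field_simp at h2
  exact h2

/-- a system of leading coefficients as an inductive invariant -/
noncomputable def leadInv {c : Pair → ℂ} (hc : IsLeading s₀ c) : ArtinInvariant ℂˣ := by
  classical
  exact
  { val := fun K L _ _ _ _ _ _ χ =>
      if h : IsChr (show G ⟨K, L⟩ → ℂ from χ) then Units.mk0 (c ⟨⟨K, L⟩, χ⟩) (hc.ne h) else 1
    val_add := fun K L _ _ _ _ _ _ χ χ' h h' => by
      have i1 : IsChr (show G ⟨K, L⟩ → ℂ from χ) := isChr_iff.mpr h
      have i2 : IsChr (show G ⟨K, L⟩ → ℂ from χ') := isChr_iff.mpr h'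
      have i3 : IsChr (show G ⟨K, L⟩ → ℂ from χ + χ') := isChr_iff.mpr (h.add h')
      rw [dif_pos i1, dif_pos i2, dif_pos i3]
      apply Units.ext
      rw [Units.val_mul, Units.val_mk0, Units.val_mk0, Units.val_mk0]
      exact hc.add i1 i2 i3
    val_infl := fun K L N _ _ _ _ _ _ _ _ _ _ _ _ χ h => by
      have i1 : IsChr (show G ⟨K, L⟩ → ℂ from χ) := isChr_iff.mpr h
      have i2 : IsChr (show G ⟨K, N⟩ → ℂ from
          (fun g : N ≃ₐ[K] N => χ (AlgEquiv.restrictNormalHom L g))) := by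
        refine isChr_iff.mpr ?_
        obtain ⟨V, _, _, _, ρ, rfl⟩ := h
        exact ⟨V, inferInstance, inferInstance, inferInstance,
          ρ.comp (AlgEquiv.restrictNormalHom L), rfl⟩
      rw [dif_pos i1, dif_pos i2]
      apply Units.ext
      rw [Units.val_mk0, Units.val_mk0]
      refine hc.eq i2 i1 fun s l _ hl => ?_
      refine hasSum_iff.mpr ?_
      have h3 := hasSum_iff.mp hl
      have h4 := SC.logTerm_infl (K := K) (L := L) (N := N) h s
      exact (h4 ▸ h3)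
    val_ind := fun K F L _ _ _ _ _ _ _ _ _ _ _ _ χ h => by
      have i1 : IsChr (show G ⟨F, L⟩ → ℂ from χ) := isChr_iff.mpr h
      have i2 : IsChr (show G ⟨K, L⟩ → ℂ from indChar K F L χ) :=
        isChr_iff.mpr (SC.isChar_indChar h)
      rw [dif_pos i1, dif_pos i2]
      apply Units.ext
      rw [Units.val_mk0, Units.val_mk0]
      refine hc.eq i2 i1 fun s l _ hl => ?_
      refine hasSum_iff.mpr ?_
      have h3 := hasSum_iff.mp hl
      exact SC.hasSum_ind (K := K) (F := F) (L := L) h3 }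

lemma leadInv_val {c : Pair → ℂ} (hc : IsLeading s₀ c) {K L : Type} [Field K] [NumberField K]
    [Field L] [NumberField L] [Algebra K L] [IsGalois K L] {χ : (L ≃ₐ[K] L) → ℂ} (h : IsChar χ) :
    (((leadInv hc).val K L χ : ℂˣ) : ℂ) = c ⟨⟨K, L⟩, χ⟩ := by
  have h0 : IsChr (show G ⟨K, L⟩ → ℂ from χ) := isChr_iff.mpr h
  have h1 : (leadInv hc).val K L χ = Units.mk0 (c ⟨⟨K, L⟩, χ⟩) (hc.ne h0) := dif_pos h0
  rw [h1]
  rfl

end lead

end Pool.Agent.U213.BE
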