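import Mathlib
import Pool.Agent.U213.BE.Infl
import Pool.Agent.U213.BE.Lead

/-!
# The defect of the conjecture is an inductive invariant
-/

set_option autoImplicit false
set_option linter.unusedSectionVars false

open NumberField

namespace Pool.Agent.U213.BE

open Pool.Agent.K4H74 Pool.Agent.K4H74.ST
open Pool.Agent.K4H74.SC (isChar_indChar indChar_sigma isChar_sigma)

variable {T : KTheory} {k : ℕ}

section stark

/-- `a = A(χ, φ) = R(χ, φ) / c(χ)` -/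
def IsA (c : ArtinInvariant ℂˣ) {K L : Type} [Field K] [NumberField K] [Field L] [NumberField L]
    [Algebra K L] [IsGalois K L] (φ : BorelMap K L T k) (χ : (L ≃ₐ[K] L) → ℂ) (a : ℂ) : Prop :=
  ∃ r : ℂ, IsReg φ χ r ∧ a = r / (c.val K L χ : ℂˣ)

variable {c : ArtinInvariant ℂˣ}

variable {K L : Type} [Field K] [NumberField K] [Field L] [NumberField L] [Algebra K L]
  [IsGalois K L]

lemma IsA.ne {φ : BorelMap K L T k} {χ : (L ≃ₐ[K] L) → ℂ} {a : ℂ} (h : IsA c φ χ a) : a ≠ 0 := by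
  obtain ⟨r, hr, rfl⟩ := h
  exact div_ne_zero hr.ne (Units.ne_zero _)

lemma IsA.add {φ : BorelMap K L T k} {χ χ' : (L ≃ₐ[K] L) → ℂ} (hχ : IsChar χ) (hχ' : IsChar χ')
    {a a' b : ℂ} (h : IsA c φ χ a) (h' : IsA c φ χ' a') (hb : IsA c φ (χ + χ') b) :
    b = a * a' := by
  obtain ⟨r, hr, rfl⟩ := h
  obtain ⟨r', hr', rfl⟩ := h'
  obtain ⟨s, hs, rfl⟩ := hb
  rw [hr.add hr' hs, c.val_add K L χ χ' hχ hχ', Units.val_mul, div_mul_div_comm]

lemma IsA.exists (c : ArtinInvariant ℂˣ) (φ : BorelMap K L T k) {χ : (L ≃ₐ[K] L) → ℂ}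
    (h : IsChar χ) : ∃ a, IsA c φ χ a := by
  obtain ⟨r, hr⟩ := IsReg.exists φ h
  exact ⟨_, r, hr, rfl⟩

variable (T k c)

/-- `v` is the quotient `A(χ, φ)^σ / A(χ^σ, φ)`, for every `φ` -/
def IsVal (σ : ℂ ≃+* ℂ) (K L : Type) [Field K] [NumberField K] [Field L] [NumberField L]
    [Algebra K L] [IsGalois K L] (χ : (L ≃ₐ[K] L) → ℂ) (v : ℂˣ) : Prop :=
  ∀ (φ : BorelMap K L T k) (a a' : ℂ), IsA c φ χ a → IsA c φ (fun g => σ (χ g)) a' → σ a = v * a'

variable {T k c}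

lemma isVal_of (σ : ℂ ≃+* ℂ) {χ : (L ≃ₐ[K] L) → ℂ} (h : IsChar χ)
    {φ : BorelMap K L T k} {a a' : ℂ} (ha : IsA c φ χ a) (ha' : IsA c φ (fun g => σ (χ g)) a')
    {v : ℂˣ} (hv : σ a = v * a') : IsVal T k c σ K L χ v := by
  intro φ' b b' hb hb'
  obtain ⟨r, hr, rfl⟩ := ha
  obtain ⟨r', hr', rfl⟩ := ha'
  obtain ⟨s, hs, rfl⟩ := hb
  obtain ⟨s', hs', rfl⟩ := hb'
  have h1 := IsReg.change σ.toRingHom h (isChar_sigma h σ.toRingHom) hr hs hr' hs'
  change s' * σ r = r' * σ s at h1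
  rw [map_div₀] at hv ⊢
  have e1 : σ ((c.val K L χ : ℂˣ) : ℂ) ≠ 0 := (map_ne_zero σ).mpr (Units.ne_zero _)
  have e2 : ((c.val K L (fun g => σ (χ g)) : ℂˣ) : ℂ) ≠ 0 := Units.ne_zero _
  have e3 : r' ≠ 0 := hr'.ne
  rw [div_eq_iff e1] at hv ⊢
  rw [hv] at h1
  apply mul_left_cancel₀ e3
  rw [← h1]
  field_simp

lemma exists_isVal (T : KTheory) (k : ℕ) (c : ArtinInvariant ℂˣ) (σ : ℂ ≃+* ℂ)
    {χ : (L ≃ₐ[K] L) → ℂ} (h : IsChar χ) : ∃ v, IsVal T k c σ K L χ v := by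
  obtain ⟨φ⟩ := exists_BorelMap (L := L) K T k
  obtain ⟨a, ha⟩ := IsA.exists c φ h
  obtain ⟨a', ha'⟩ := IsA.exists c φ (isChar_sigma h σ.toRingHom)
  have e1 : σ a ≠ 0 := (map_ne_zero σ).mpr ha.ne
  refine ⟨Units.mk0 (σ a / a') (div_ne_zero e1 ha'.ne), isVal_of σ h ha ha' ?_⟩
  rw [Units.val_mk0, div_mul_cancel₀ _ ha'.ne]

lemma IsVal.unique {σ : ℂ ≃+* ℂ} {χ : (L ≃ₐ[K] L) → ℂ} (h : IsChar χ)
    {v v' : ℂˣ} (hv : IsVal T k c σ K L χ v) (hv' : IsVal T k c σ K L χ v') : v = v' := by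
  obtain ⟨φ⟩ := exists_BorelMap (L := L) K T k
  obtain ⟨a, ha⟩ := IsA.exists c φ h
  obtain ⟨a', ha'⟩ := IsA.exists c φ (isChar_sigma h σ.toRingHom)
  have h1 := hv φ a a' ha ha'
  rw [hv' φ a a' ha ha'] at h1
  exact (Units.ext (mul_right_cancel₀ ha'.ne h1)).symm

variable (T k c)

open Classical in
/-- the value -/
noncomputable def sval (σ : ℂ ≃+* ℂ) (K L : Type) [Field K] [NumberField K] [Field L]
    [NumberField L] [Algebra K L] [IsGalois K L] (χ : (L ≃ₐ[K] L) → ℂ) : ℂˣ :=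
  if h : ∃ v, IsVal T k c σ K L χ v then h.choose else 1

variable {T k c}

lemma sval_spec (σ : ℂ ≃+* ℂ) {χ : (L ≃ₐ[K] L) → ℂ} (h : IsChar χ) :
    IsVal T k c σ K L χ (sval T k c σ K L χ) := by
  have h1 := exists_isVal T k c σ h
  rw [sval, dif_pos h1]
  exact h1.choose_spec

lemma sval_eq {σ : ℂ ≃+* ℂ} {χ : (L ≃ₐ[K] L) → ℂ} (h : IsChar χ) {v : ℂˣ}
    (hv : IsVal T k c σ K L χ v) : sval T k c σ K L χ = v :=
  IsVal.unique h (sval_spec σ h) hv

variable (T k c)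

/-- **The defect as an inductive invariant** -/
noncomputable def defInv (σ : ℂ ≃+* ℂ) : ArtinInvariant ℂˣ where
  val K L _ _ _ _ _ _ χ := sval T k c σ K L χ
  val_add K L _ _ _ _ _ _ χ χ' h h' := by
    apply sval_eq (h.add h')
    obtain ⟨φ⟩ := exists_BorelMap (L := L) K T k
    obtain ⟨a, ha⟩ := IsA.exists c φ h
    obtain ⟨b, hb⟩ := IsA.exists c φ (isChar_sigma h σ.toRingHom)
    obtain ⟨a', ha'⟩ := IsA.exists c φ h'
    obtain ⟨b', hb'⟩ := IsA.exists c φ (isChar_sigma h' σ.toRingHom)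
    obtain ⟨d, hd⟩ := IsA.exists c φ (h.add h')
    obtain ⟨e, he⟩ := IsA.exists c φ (isChar_sigma (h.add h') σ.toRingHom)
    refine isVal_of σ (h.add h') hd he ?_
    have h1 : (fun g => σ ((χ + χ') g)) = (fun g => σ (χ g)) + (fun g => σ (χ' g)) := by
      funext g
      exact map_add σ _ _
    have he' : IsA c φ ((fun g => σ (χ g)) + (fun g => σ (χ' g))) e := by
      rw [← h1]; exact he
    rw [ha.add h h' ha' hd, hb.add (isChar_sigma h σ.toRingHom) (isChar_sigma h' σ.toRingHom)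
      hb' he', map_mul, sval_spec σ h φ a b ha hb, sval_spec σ h' φ a' b' ha' hb', Units.val_mul]
    ring
  val_infl K L N _ _ _ _ _ _ _ _ _ _ _ _ χ h := by
    have hN : IsChar (fun g : N ≃ₐ[K] N => χ (AlgEquiv.restrictNormalHom L g)) := by
      obtain ⟨V, _, _, _, ρ, rfl⟩ := h
      exact ⟨V, inferInstance, inferInstance, inferInstance,
        ρ.comp (AlgEquiv.restrictNormalHom L), rfl⟩
    apply sval_eq hN
    obtain ⟨φ⟩ := exists_BorelMap (L := N) K T k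
    obtain ⟨φ', hφ⟩ := φ.down (L := L)
    obtain ⟨a, r, hr, rfl⟩ := IsA.exists c φ' h
    obtain ⟨b, s, hs, rfl⟩ := IsA.exists c φ' (isChar_sigma h σ.toRingHom)
    obtain ⟨r', hr'⟩ := IsReg.exists φ hN
    obtain ⟨s', hs'⟩ := IsReg.exists φ (isChar_sigma hN σ.toRingHom)
    have h1 : r' = r := IsReg.infl hφ hr hr'
    have h2 : s' = s := IsReg.infl hφ hs hs'
    subst h1 h2
    have i1 := c.val_infl K L N χ h
    have i2 := c.val_infl K L N (fun g => σ (χ g)) (isChar_sigma h σ.toRingHom)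
    have h3 : IsA c φ (fun g : N ≃ₐ[K] N => χ (AlgEquiv.restrictNormalHom L g))
        (r' / (c.val K L χ : ℂˣ)) := ⟨r', hr', by rw [i1]⟩
    have h4 : IsA c φ (fun g : N ≃ₐ[K] N => σ (χ (AlgEquiv.restrictNormalHom L g)))
        (s' / (c.val K L (fun g => σ (χ g)) : ℂˣ)) := ⟨s', hs', by rw [i2]⟩
    exact isVal_of σ hN h3 h4 (sval_spec σ h φ' _ _ ⟨r', hr, rfl⟩ ⟨s', hs, rfl⟩)
  val_ind K F L _ _ _ _ _ _ _ _ _ _ _ _ χ h := by
    have hi : IsChar (indChar K F L χ) := isChar_indChar h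
    apply sval_eq hi
    obtain ⟨φ⟩ := exists_BorelMap (L := L) K T k
    obtain ⟨a, r, hr, rfl⟩ := IsA.exists c (φ.res F) h
    obtain ⟨b, s, hs, rfl⟩ := IsA.exists c (φ.res F) (isChar_sigma h σ.toRingHom)
    obtain ⟨r', hr'⟩ := IsReg.exists φ hi
    obtain ⟨s', hs'⟩ := IsReg.exists φ (isChar_sigma hi σ.toRingHom)
    have h0 : (fun g => σ.toRingHom (indChar K F L χ g))
        = indChar K F L (fun g => σ.toRingHom (χ g)) := funext fun g => indChar_sigma _ _ _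
    rw [h0] at hs'
    have h1 : r' = r := IsReg.ind hr hr'
    have h2 : s' = s := IsReg.ind hs hs'
    subst h1 h2
    have i1 := c.val_ind K F L χ h
    have i2 := c.val_ind K F L (fun g => σ.toRingHom (χ g)) (isChar_sigma h σ.toRingHom)
    have h3 : IsA c φ (indChar K F L χ) (r' / (c.val F L χ : ℂˣ)) := ⟨r', hr', by rw [i1]⟩
    have h4 : IsA c φ (fun g => σ (indChar K F L χ g))
        (s' / (c.val F L (fun g => σ.toRingHom (χ g)) : ℂˣ)) := by
      change IsA c φ (fun g => σ.toRingHom (indChar K F L χ g)) _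
      rw [h0]
      exact ⟨s', hs', by rw [i2]⟩
    exact isVal_of σ hi h3 h4 (sval_spec σ h (φ.res F) _ _ ⟨r', hr, rfl⟩ ⟨s', hs, rfl⟩)

end stark

section link

variable {s₀ : ℂ} {c : SK.Pair → ℂ}

/-- the conjecture and the value of the invariant -/
theorem gross_iff (hc : IsLeading s₀ c) (σ : ℂ ≃+* ℂ) {K L : Type} [Field K] [NumberField K]
    [Field L] [NumberField L] [Algebra K L] [IsGalois K L] {χ : (L ≃ₐ[K] L) → ℂ} (h : IsChar χ) :
    Gross T k c σ K L χ ↔ (defInv T k (leadInv hc) σ).val K L χ = 1 := by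
  have hσ : IsChar (fun g => σ (χ g)) := isChar_sigma h σ.toRingHom
  constructor
  · intro hS
    apply sval_eq h
    rintro φ a a' ⟨r, hr, rfl⟩ ⟨r', hr', rfl⟩
    rw [Units.val_one, one_mul, leadInv_val hc h, leadInv_val hc hσ]
    exact hS φ r r' hr hr'
  · intro hS φ r r' hr hr'
    have h1 := sval_spec (T := T) (k := k) (c := leadInv hc) σ h φ _ _ ⟨r, hr, rfl⟩ ⟨r', hr', rfl⟩
    change sval T k (leadInv hc) σ K L χ = 1 at hS
    rw [hS, Units.val_one, one_mul, leadInv_val hc h, leadInv_val hc hσ] at h1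
    exact h1

end link

end Pool.Agent.U213.BE
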