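import Mathlib
import Pool.Agent.U213.BE.Inv
import Pool.Agent.K4H74.ST.Exc
import Pool.Agent.K4H34.NC.Main

/-!
# Beilinson's equivariant conjecture for odd `k`: the reductions
-/

set_option autoImplicit false
set_option linter.unusedSectionVars false

open NumberField

namespace Pool.Agent.U213.BE

open Pool.Agent.K4H74 Pool.Agent.K4H74.ST Pool.Agent.K4H77

section defs

variable (T : KTheory) (k : ℕ) (c : SK.Pair → ℂ)

/-- The known cases: the trivial characters of the number fields (Borel's theorem on the value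
`ζ_K*(1 - k)`), and the totally odd linear characters of the extensions of totally real fields, for which
the regulator is `1` and the value `L(ψ, 1 - k)` is not zero (`k` is odd), by the theorem of Siegel, Klingen
and Shintani. -/
structure Known : Prop where
  /-- Borel -/
  borel : ∀ (K : Type) [Field K] [NumberField K] (σ : ℂ ≃+* ℂ), Gross T k c σ K K fun _ => 1
  /-- Siegel, Klingen, Shintani -/
  siegel : ∀ (K L : Type) [Field K] [NumberField K] [Field L] [NumberField L] [Algebra K L]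
    [IsGalois K L], IsTotallyReal K → ∀ ψ : (L ≃ₐ[K] L) →* ℂˣ,
    (∀ (φ : L →+* ℂ) (t : L ≃ₐ[K] L), ComplexEmbedding.IsConj φ t → ψ t = -1) →
    ∀ σ : ℂ ≃+* ℂ, Gross T k c σ K L fun g => ((ψ g : ℂˣ) : ℂ)

/-- Beilinson's conjecture for the cyclic extensions of the totally complex fields -/
def ComplexCase : Prop :=
  ∀ (K L : Type) [Field K] [NumberField K] [Field L] [NumberField L] [Algebra K L] [IsGalois K L],
    IsTotallyComplex K → IsCyclic (L ≃ₐ[K] L) → Beilinson T k c K L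

/-- Beilinson's conjecture for the cyclic extensions `L/K` of degree `4, 8, 16, ...` which are unramified
at infinity, where `K` is neither totally real nor totally complex -/
def MixedCase : Prop :=
  ∀ (K L : Type) [Field K] [NumberField K] [Field L] [NumberField L] [Algebra K L] [IsGalois K L],
    ¬ IsTotallyReal K → ¬ IsTotallyComplex K → IsCyclic (L ≃ₐ[K] L) →
    (∃ l : ℕ, Nat.card (L ≃ₐ[K] L) = 2 ^ (l + 2)) →
    (∀ (φ : L →+* ℂ) (t : L ≃ₐ[K] L), ComplexEmbedding.IsConj φ t → t = 1) → Beilinson T k c K L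

/-- `L/K` is unramified at all finite primes, and the primes above `m` split completely. -/
def UnramifiedSplit (m : ℕ) (K L : Type) [Field K] [Field L] [Algebra K L] : Prop :=
  ∀ P : Ideal (𝓞 L), P.IsMaximal →
    (∀ g : L ≃ₐ[K] L, (∀ x y : 𝓞 L, (y : L) = g x → y - x ∈ P) → g = 1) ∧
    ((m : 𝓞 L) ∈ P → ∀ g : L ≃ₐ[K] L, (∀ x y : 𝓞 L, (y : L) = g x → (y ∈ P ↔ x ∈ P)) → g = 1)

/-- Beilinson's conjecture for the cyclic extensions `L/K` of degree dividing `e`, unramified at all finite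
primes, in which the primes above `m` split completely, `K` totally complex -/
def UnramifiedCase (m e : ℕ) : Prop :=
  ∀ (K L : Type) [Field K] [NumberField K] [Field L] [NumberField L] [Algebra K L] [IsGalois K L],
    IsTotallyComplex K → IsCyclic (L ≃ₐ[K] L) → Nat.card (L ≃ₐ[K] L) ∣ e →
    UnramifiedSplit m K L → Beilinson T k c K L

/-- The defect of the conjecture for `χ` and `σ` is `v`:
`(R(χ, φ) / L*(χ, 1 - k))^σ = v R(χ^σ, φ) / L*(χ^σ, 1 - k)` for all `φ`. -/
def IsDefect (σ : ℂ ≃+* ℂ) (K L : Type) [Field K] [NumberField K] [Field L] [NumberField L]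
    [Algebra K L] [IsGalois K L] (χ : (L ≃ₐ[K] L) → ℂ) (v : ℂ) : Prop :=
  ∀ (φ : BorelMap K L T k) (r r' : ℂ), IsReg φ χ r → IsReg φ (fun g => σ (χ g)) r' →
    σ (r / c ⟨⟨K, L⟩, χ⟩) = v * (r' / c ⟨⟨K, L⟩, fun g => σ (χ g)⟩)

end defs

section defs2

variable (T : KTheory) (k : ℕ) (c : SK.Pair → ℂ)

/-- Beilinson's conjecture for all abelian extensions of number fields: the question Q1 for this `k` -/
def AbelianCase : Prop :=
  ∀ (K L : Type) [Field K] [NumberField K] [Field L] [NumberField L] [Algebra K L] [IsGalois K L],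
    (∀ g h : L ≃ₐ[K] L, g * h = h * g) → Beilinson T k c K L

/-- The conjecture for all characters of all Galois extensions of number fields -/
def AllCharacters : Prop :=
  ∀ (K L : Type) [Field K] [NumberField K] [Field L] [NumberField L] [Algebra K L] [IsGalois K L]
    (χ : (L ≃ₐ[K] L) → ℂ), IsChar χ → ∀ σ : ℂ ≃+* ℂ, Gross T k c σ K L χ

end defs2

section defs3

variable (T : KTheory) (k : ℕ) (c : SK.Pair → ℂ)

/-- The conjecture for all characters of `Gal(L/K)`, if `K` is totally real and the complex conjugations are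
central in `Gal(L/K)` (for instance if `L/K` is abelian), and if `Gal(L/K)` has no element of order `4` -/
def CentralCase : Prop :=
  ∀ (K L : Type) [Field K] [NumberField K] [Field L] [NumberField L] [Algebra K L] [IsGalois K L],
    ((IsTotallyReal K ∧ ∀ (φ : L →+* ℂ) (t : L ≃ₐ[K] L), ComplexEmbedding.IsConj φ t →
      ∀ g : L ≃ₐ[K] L, g * t = t * g) ∨ ∀ g : L ≃ₐ[K] L, orderOf g ≠ 4) →
    ∀ χ : (L ≃ₐ[K] L) → ℂ, IsChar χ → ∀ σ : ℂ ≃+* ℂ, Gross T k c σ K L χ

/-- Let `L` be contained in a Galois extension `N` of `ℚ` with `y^e = 1` in `Gal(N/ℚ)`. Then the conjecture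
holds for every character of `Gal(L/K)` up to a root of unity whose order has only prime divisors of
`2 [N : ℚ]`. -/
def UpToRootsOfUnity (e : ℕ) : Prop :=
  ∀ (K L N : Type) [Field K] [NumberField K] [Field L] [NumberField L] [Algebra K L]
    [IsGalois K L] [Field N] [NumberField N] [IsGalois ℚ N] [Algebra L N],
    (∀ y : N ≃ₐ[ℚ] N, y ^ e = 1) →
    ∀ χ : (L ≃ₐ[K] L) → ℂ, IsChar χ → ∀ σ : ℂ ≃+* ℂ,
    ∃ (v : ℂ) (n : ℕ), IsDefect T k c σ K L χ v ∧ 0 < n ∧ v ^ n = 1 ∧
      ∀ p : ℕ, p.Prime → p ∣ n → p ∣ 2 * Module.finrank ℚ N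

end defs3

section proofs

variable {T : KTheory} {k : ℕ} {c : SK.Pair → ℂ} {s₀ : ℂ}

lemma isCyclic_of_inj {G : Type} [Group G] [Finite G] (ψ : G →* ℂˣ) (h : Function.Injective ψ) :
    IsCyclic G :=
  isCyclic_of_injective_ringHom ((Units.coeHom ℂ).comp ψ) (Units.val_injective.comp h)

lemma trivOne (hc : IsLeading s₀ c) (hK : Known T k c) (σ : ℂ ≃+* ℂ) :
    TrivOne (defInv T k (leadInv hc) σ) := by
  intro K _ _
  have h2 : lc (1 : (K ≃ₐ[K] K) →* ℂˣ) = fun _ => 1 := by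
    funext g
    simp [lc]
  have h1 : IsChar (fun _ : K ≃ₐ[K] K => (1 : ℂ)) := h2 ▸ IsChar.lc 1
  exact (gross_iff hc σ h1).mp (hK.borel K σ)

lemma trivOdd (hc : IsLeading s₀ c) (hK : Known T k c) (σ : ℂ ≃+* ℂ) :
    TrivOdd (defInv T k (leadInv hc) σ) := by
  intro K L _ _ _ _ _ _ hr ψ hψ
  exact (gross_iff hc σ (IsChar.lc ψ)).mp (hK.siegel K L hr ψ hψ σ)

lemma trivComplex (hc : IsLeading s₀ c) (hC : ComplexCase T k c) (σ : ℂ ≃+* ℂ) :
    TrivComplex (defInv T k (leadInv hc) σ) := by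
  intro K L _ _ _ _ _ _ hK ψ hψ
  exact (gross_iff hc σ (IsChar.lc ψ)).mp (hC K L hK (isCyclic_of_inj ψ hψ) σ ψ)

lemma trivMixed (hc : IsLeading s₀ c) (hM : MixedCase T k c) (σ : ℂ ≃+* ℂ) :
    TrivMixed (defInv T k (leadInv hc) σ) := by
  intro K L _ _ _ _ _ _ hK hK' hl hcc ψ hψ
  exact (gross_iff hc σ (IsChar.lc ψ)).mp (hM K L hK hK' (isCyclic_of_inj ψ hψ) hl hcc σ ψ)

lemma trivSplit (hc : IsLeading s₀ c) {m e : ℕ} (hU : UnramifiedCase T k c m e) (σ : ℂ ≃+* ℂ) :
    Pool.Agent.K4H34.NC.TrivSplitLinE (defInv T k (leadInv hc) σ) m e := by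
  intro K L _ _ _ _ _ _ hK hin hde ψ hψ hψe
  have hcyc := isCyclic_of_inj ψ hψ
  refine (gross_iff hc σ (IsChar.lc ψ)).mp (hU K L hK hcyc ?_ ?_ σ ψ)
  · rw [← IsCyclic.exponent_eq_card]
    refine Monoid.exponent_dvd_of_forall_pow_eq_one fun g => hψ ?_
    rw [map_pow, map_one, ← MonoidHom.pow_apply, hψe, MonoidHom.one_apply]
  · intro P hP
    refine ⟨fun g hg => hin P hP g fun x => hg x _ rfl, fun hm g hg => ?_⟩
    exact hde P hP hm g fun x => hg x _ rfl

/-- all characters from the complex and the mixed case -/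
theorem all_of (hc : IsLeading s₀ c) (hK : Known T k c) (hC : ComplexCase T k c)
    (hM : MixedCase T k c) : AllCharacters T k c := by
  intro K L _ _ _ _ _ _ χ hχ σ
  exact (gross_iff hc σ hχ).mpr (main_all _ (trivOne hc hK σ) (trivComplex hc hC σ)
    (trivOdd hc hK σ) (trivMixed hc hM σ) K L χ hχ)

/-- the abelian case and the basic cases -/
theorem abelian_iff (hc : IsLeading s₀ c) (hK : Known T k c) :
    (AbelianCase T k c ↔ ComplexCase T k c ∧ MixedCase T k c) ∧
      (AbelianCase T k c ↔ AllCharacters T k c) := by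
  have hcyc : ∀ {G : Type} [Group G], IsCyclic G → ∀ g h : G, g * h = h * g := by
    intro G _ hG g h
    let _ := IsCyclic.commGroup (α := G)
    exact mul_comm g h
  have h1 : AbelianCase T k c → ComplexCase T k c ∧ MixedCase T k c := fun h =>
    ⟨fun K L _ _ _ _ _ _ _ hG => h K L (hcyc hG),
      fun K L _ _ _ _ _ _ _ _ hG _ _ => h K L (hcyc hG)⟩
  have h2 : AllCharacters T k c → AbelianCase T k c := fun h K L _ _ _ _ _ _ _ σ ψ =>
    h K L _ (IsChar.lc ψ) σ
  have h3 : ComplexCase T k c ∧ MixedCase T k c → AllCharacters T k c := fun h =>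
    all_of hc hK h.1 h.2
  exact ⟨⟨h1, fun h => h2 (h3 h)⟩, ⟨fun h => h3 (h1 h), h2⟩⟩

/-- totally real base fields, and groups without elements of order four -/
theorem real_or_four (hc : IsLeading s₀ c) (hK : Known T k c) (hC : ComplexCase T k c)
    (K L : Type) [Field K] [NumberField K] [Field L] [NumberField L] [Algebra K L] [IsGalois K L]
    (hG : (IsTotallyReal K ∧ ∀ (φ : L →+* ℂ) (t : L ≃ₐ[K] L), ComplexEmbedding.IsConj φ t →
      ∀ g : L ≃ₐ[K] L, g * t = t * g) ∨ ∀ g : L ≃ₐ[K] L, orderOf g ≠ 4)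
    {χ : (L ≃ₐ[K] L) → ℂ} (hχ : IsChar χ) (σ : ℂ ≃+* ℂ) : Gross T k c σ K L χ := by
  rw [gross_iff hc σ hχ]
  rcases hG with ⟨hr, hcc⟩ | h4
  · refine main_central (trivOne hc hK σ) (trivComplex hc hC σ) (trivOdd hc hK σ) K L hr ?_ χ hχ
    rintro t ⟨φ, hφ⟩ g
    exact hcc φ t hφ g
  · exact main_four (trivOne hc hK σ) (trivComplex hc hC σ) K L h4 χ hχ

/-- the conjecture up to roots of unity -/
theorem defect_of (hc : IsLeading s₀ c) (hK : Known T k c) {m e : ℕ} (hm : m ≠ 0)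
    (K L N : Type) [Field K] [NumberField K] [Field L] [NumberField L] [Algebra K L] [IsGalois K L]
    [Field N] [NumberField N] [IsGalois ℚ N] [Algebra L N] (he : ∀ y : N ≃ₐ[ℚ] N, y ^ e = 1)
    (hU : UnramifiedCase T k c m (2 * e)) {χ : (L ≃ₐ[K] L) → ℂ} (hχ : IsChar χ) (σ : ℂ ≃+* ℂ) :
    ∃ (v : ℂ) (n : ℕ), IsDefect T k c σ K L χ v ∧ 0 < n ∧ v ^ n = 1 ∧
      ∀ p : ℕ, p.Prime → p ∣ n → p ∣ 2 * Module.finrank ℚ N := by
  obtain ⟨n, hn, hp, h1⟩ := Pool.Agent.K4H34.NC.main_order hm (trivOne hc hK σ) (trivOdd hc hK σ)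
    K L N he (trivSplit hc hU σ) hχ
  refine ⟨((sval T k (leadInv hc) σ K L χ : ℂˣ) : ℂ), n, fun φ r r' hr hr' => ?_, hn, ?_, hp⟩
  · have hσ : IsChar (fun g => σ (χ g)) := Pool.Agent.K4H74.SC.isChar_sigma hχ σ.toRingHom
    have h2 := sval_spec (T := T) (k := k) (c := leadInv hc) σ hχ φ _ _ ⟨r, hr, rfl⟩ ⟨r', hr', rfl⟩
    rw [leadInv_val hc hχ, leadInv_val hc hσ] at h2
    exact h2
  · change sval T k (leadInv hc) σ K L χ ^ n = 1 at h1
    rw [← Units.val_pow_eq_pow_val, h1, Units.val_one]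

end proofs

end Pool.Agent.U213.BE
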